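import Pool.Agent.Work.MP_48678a_t2.Defs

set_option autoImplicit false

namespace MahlerT2.DIG

open Finset

/-- The tail. -/
noncomputable def U (ε : ℕ → ℕ) (K : ℕ) : ℝ := ∑' n, (ε (n + K + 1) : ℝ) / (3 : ℝ) ^ (n + 1)

/-- The head. -/
def A (ε : ℕ → ℕ) : ℕ → ℕ
  | 0 => ε 0
  | K + 1 => 3 * A ε K + ε (K + 1)

theorem summ (ε : ℕ → ℕ) (hε : ∀ n, ε n ≤ 1) (a b : ℕ) :
    Summable (fun n : ℕ => (ε (n + a) : ℝ) / (3 : ℝ) ^ (n + b)) := by
  have hg : Summable (fun n : ℕ => (1 / 3 : ℝ) ^ n) :=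
    summable_geometric_of_lt_one (by norm_num) (by norm_num)
  refine Summable.of_nonneg_of_le (fun n => by positivity) (fun n => ?_) hg
  have h1 : (ε (n + a) : ℝ) ≤ 1 := by exact_mod_cast hε _
  calc (ε (n + a) : ℝ) / (3 : ℝ) ^ (n + b) ≤ 1 / (3 : ℝ) ^ (n + b) := by gcongr
    _ ≤ 1 / (3 : ℝ) ^ n := by
        apply one_div_le_one_div_of_le (by positivity)
        exact pow_le_pow_right₀ (by norm_num) (by omega)
    _ = (1 / 3 : ℝ) ^ n := by rw [one_div_pow]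

theorem U_step (ε : ℕ → ℕ) (hε : ∀ n, ε n ≤ 1) (K : ℕ) :
    3 * U ε K = ε (K + 1) + U ε (K + 1) := by
  have hs := summ ε hε (K + 1) 1
  have h0 : U ε K = (ε (0 + K + 1) : ℝ) / (3 : ℝ) ^ (0 + 1)
      + ∑' n, (ε (n + 1 + K + 1) : ℝ) / (3 : ℝ) ^ (n + 1 + 1) := by
    unfold U
    exact Summable.tsum_eq_zero_add hs
  have h1 : (∑' n, (ε (n + 1 + K + 1) : ℝ) / (3 : ℝ) ^ (n + 1 + 1)) = (1 / 3) * U ε (K + 1) := by
    unfold U
    rw [← tsum_mul_left]
    refine tsum_congr fun n => ?_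
    have : n + 1 + K + 1 = n + (K + 1) + 1 := by ring
    rw [this, pow_succ (3 : ℝ) (n + 1)]
    field_simp
  rw [h0, h1]
  have : 0 + K + 1 = K + 1 := by ring
  rw [this]
  ring

theorem U_nonneg (ε : ℕ → ℕ) (K : ℕ) : 0 ≤ U ε K :=
  tsum_nonneg fun n => by positivity

theorem U_le (ε : ℕ → ℕ) (hε : ∀ n, ε n ≤ 1) (K : ℕ) : U ε K ≤ 1 / 2 := by
  have hg : HasSum (fun n : ℕ => (1 / 3 : ℝ) * (1 / 3 : ℝ) ^ n) ((1 / 3) * (1 - 1 / 3)⁻¹) :=
    (hasSum_geometric_of_lt_one (by norm_num) (by norm_num)).mul_left _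
  have h1 : U ε K ≤ ∑' n : ℕ, (1 / 3 : ℝ) * (1 / 3 : ℝ) ^ n := by
    unfold U
    refine Summable.tsum_le_tsum (fun n => ?_) (summ ε hε (K + 1) 1) hg.summable
    have h1 : (ε (n + K + 1) : ℝ) ≤ 1 := by exact_mod_cast hε _
    calc (ε (n + K + 1) : ℝ) / (3 : ℝ) ^ (n + 1) ≤ 1 / (3 : ℝ) ^ (n + 1) := by gcongr
      _ = (1 / 3 : ℝ) * (1 / 3 : ℝ) ^ n := by
          rw [one_div_pow, pow_succ]
          field_simp
  rw [hg.tsum_eq] at h1
  norm_num at h1
  linarith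

theorem head (ε : ℕ → ℕ) (hε : ∀ n, ε n ≤ 1) (K : ℕ) :
    (3 : ℝ) ^ K * ∑' n, (ε n : ℝ) / (3 : ℝ) ^ n = A ε K + U ε K := by
  induction K with
  | zero =>
      have hs := summ ε hε 0 0
      simp only [add_zero] at hs
      rw [pow_zero, one_mul, Summable.tsum_eq_zero_add hs]
      simp [A, U]
  | succ K ih =>
      have : (3 : ℝ) ^ (K + 1) * ∑' n, (ε n : ℝ) / (3 : ℝ) ^ n
          = 3 * ((3 : ℝ) ^ K * ∑' n, (ε n : ℝ) / (3 : ℝ) ^ n) := by ring
      rw [this, ih, mul_add, U_step ε hε K]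
      simp only [A]
      push_cast
      ring

theorem digits (ε : ℕ → ℕ) (hε : ∀ n, ε n ≤ 1) (K : ℕ) : ∀ i, A ε K / 3 ^ i % 3 ≤ 1 := by
  induction K with
  | zero =>
      intro i
      have h := hε 0
      simp only [A]
      have h2 : ε 0 / 3 ^ i ≤ ε 0 := Nat.div_le_self _ _
      have h3 := Nat.mod_le (ε 0 / 3 ^ i) 3
      omega
  | succ K ih =>
      intro i
      have h := hε (K + 1)
      cases i with
      | zero =>
          simp only [A, pow_zero, Nat.div_one]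
          omega
      | succ i =>
          have h1 : A ε (K + 1) / 3 ^ (i + 1) = A ε K / 3 ^ i := by
            rw [pow_succ', ← Nat.div_div_eq_div_mul]
            congr 1
            simp only [A]
            omega
          rw [h1]
          exact ih i

theorem main : Stmt_DIG := by
  rintro t ⟨m, ε, hε, rfl⟩ k
  by_cases hK : 0 ≤ (k : ℤ) + m
  · obtain ⟨K, hK'⟩ := Int.eq_ofNat_of_zero_le hK
    have e : (3 : ℝ) ^ k * ((3 : ℝ) ^ m * ∑' n, (ε n : ℝ) / (3 : ℝ) ^ n) = A ε K + U ε K := by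
      rw [← head ε hε K, ← mul_assoc]
      congr 1
      rw [← zpow_natCast, ← zpow_add₀ (by norm_num : (3 : ℝ) ≠ 0), hK', zpow_natCast]
    refine ⟨A ε K, digits ε hε K, ?_, ?_⟩
    · rw [e]
      have := U_nonneg ε K
      linarith
    · rw [e]
      have := U_le ε hε K
      linarith
  · refine ⟨0, fun i => by simp, ?_, ?_⟩
    · have : 0 ≤ ∑' n, (ε n : ℝ) / (3 : ℝ) ^ n := tsum_nonneg fun n => by positivity
      push_cast
      positivity
    · have h0 : (∑' n, (ε n : ℝ) / (3 : ℝ) ^ n) ≤ 3 / 2 := by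
        have := head ε hε 0
        rw [pow_zero, one_mul] at this
        rw [this]
        have h1 := U_le ε hε 0
        have h2 : (A ε 0 : ℝ) ≤ 1 := by
          simp only [A]
          exact_mod_cast hε 0
        linarith
      have h0' : 0 ≤ ∑' n, (ε n : ℝ) / (3 : ℝ) ^ n := tsum_nonneg fun n => by positivity
      have e : (3 : ℝ) ^ k * ((3 : ℝ) ^ m * ∑' n, (ε n : ℝ) / (3 : ℝ) ^ n)
          = (3 : ℝ) ^ ((k : ℤ) + m) * ∑' n, (ε n : ℝ) / (3 : ℝ) ^ n := by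
        rw [← mul_assoc]
        congr 1
        rw [← zpow_natCast, ← zpow_add₀ (by norm_num : (3 : ℝ) ≠ 0)]
      have h3 : (3 : ℝ) ^ ((k : ℤ) + m) ≤ (3 : ℝ) ^ (-1 : ℤ) :=
        zpow_le_zpow_right₀ (by norm_num) (by omega)
      have h4 : (3 : ℝ) ^ (-1 : ℤ) = 1 / 3 := by norm_num
      rw [e]
      push_cast
      calc (3 : ℝ) ^ ((k : ℤ) + m) * ∑' n, (ε n : ℝ) / (3 : ℝ) ^ n
          ≤ (1 / 3) * (3 / 2) := by
            rw [← h4]
            exact mul_le_mul h3 h0 h0' (by positivity)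
        _ ≤ 0 + 1 / 2 := by norm_num

end MahlerT2.DIG

namespace MahlerT2

theorem p_DIG : Stmt_DIG := DIG.main

end MahlerT2
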