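import Pool.Agent.Work.MP_48678a_t2.Defs

set_option autoImplicit false

namespace MahlerT2

open Finset

namespace CNT

/-- The exponents. -/
lemma expo {θ : ℝ} (hθ : θ = Real.log 2 / Real.log 3) (j : ℕ) :
    (2 : ℝ) ^ (600 * j) * Real.sqrt ((3 / 5) ^ j) ≤ ((3 : ℝ) ^ (600 * j)) ^ (θ - 1 / 3000) := by
  have h3 : (0 : ℝ) < 3 := by norm_num
  have hlog3 : 0 < Real.log 3 := Real.log_pos (by norm_num)
  have hpow : (3 : ℝ) ^ θ = 2 := by
    rw [Real.rpow_def_of_pos h3, hθ, mul_div_cancel₀ _ hlog3.ne', Real.exp_log (by norm_num)]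
  have e1 : ((3 : ℝ) ^ (600 * j)) ^ (θ - 1 / 3000) =
      (2 : ℝ) ^ (600 * j) * (((3 : ℝ) ^ ((-1 / 5 : ℝ))) ^ j) := by
    rw [Real.rpow_sub (by positivity)]
    rw [← Real.rpow_natCast (3 : ℝ) (600 * j), ← Real.rpow_mul h3.le, mul_comm _ θ,
      Real.rpow_mul h3.le, hpow, Real.rpow_natCast, div_eq_mul_inv, ← Real.rpow_mul h3.le,
      ← Real.rpow_neg h3.le]
    congr 1
    rw [← Real.rpow_natCast ((3 : ℝ) ^ ((-1 / 5 : ℝ))) j, ← Real.rpow_mul h3.le]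
    congr 1
    push_cast
    ring
  rw [e1]
  refine mul_le_mul_of_nonneg_left ?_ (by positivity)
  have h5 : Real.sqrt ((3 / 5) ^ j) = (Real.sqrt (3 / 5)) ^ j := by
    rw [Real.sqrt_eq_iff_mul_self_eq (by positivity) (by positivity), ← mul_pow,
      Real.mul_self_sqrt (by norm_num)]
  rw [h5]
  refine pow_le_pow_left₀ (Real.sqrt_nonneg _) ?_ j
  -- `√(3/5) ≤ 3 ^ (-1/5)`: tenth powers
  have h10 : (Real.sqrt (3 / 5)) ^ 10 ≤ ((3 : ℝ) ^ ((-1 / 5 : ℝ))) ^ 10 := by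
    have e2 : (Real.sqrt (3 / 5)) ^ 10 = (3 / 5 : ℝ) ^ 5 := by
      rw [show (10 : ℕ) = 2 * 5 from rfl, pow_mul, Real.sq_sqrt (by norm_num)]
    have e3 : ((3 : ℝ) ^ ((-1 / 5 : ℝ))) ^ 10 = 1 / 9 := by
      rw [← Real.rpow_natCast, ← Real.rpow_mul h3.le]
      have : (-1 / 5 : ℝ) * ((10 : ℕ) : ℝ) = ((-2 : ℤ) : ℝ) := by norm_num
      rw [this, Real.rpow_intCast]
      norm_num
    rw [e2, e3]
    norm_num
  exact le_of_pow_le_pow_left₀ (by norm_num) (by positivity) h10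

/-- The algebra of the square. -/
lemma alg (C₀ : ℝ) (hC₀ : 0 < C₀) (a b J : ℕ) (hb : b = 2 * a) :
    4 * 2 ^ a * (C₀ * (4 ^ b * 2 ^ a * (3 / 5) ^ J)) =
      (2 * Real.sqrt C₀ * (2 ^ (a + b) * Real.sqrt ((3 / 5) ^ J))) ^ 2 := by
  rw [mul_pow, mul_pow, mul_pow, Real.sq_sqrt hC₀.le, Real.sq_sqrt (by positivity), hb]
  have e4 : (4 : ℝ) ^ (2 * a) = (2 ^ a) ^ 4 := by
    rw [show (4 : ℝ) = 2 ^ 2 by norm_num, ← pow_mul, ← pow_mul]
    congr 1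
    ring
  have e5 : (2 : ℝ) ^ (a + 2 * a) = (2 ^ a) ^ 3 := by
    rw [← pow_mul]
    congr 1
    ring
  rw [e4, e5]
  ring

end CNT

theorem p_CNT (hCAU : Stmt_CAU) (hNUM : Stmt_NUM) : Stmt_CNT := by
  classical
  intro x κ hx hκ hdio
  obtain ⟨C₀, hC₀, hN2⟩ := hNUM κ (1 / x) hκ hdio
  obtain ⟨θ, hθ⟩ : ∃ θ : ℝ, θ = Real.log 2 / Real.log 3 := ⟨_, rfl⟩
  have hθ1 : 0 ≤ θ - 1 / 3000 := by
    have h1 : (1 / 2 : ℝ) ≤ θ := by
      rw [hθ, div_le_div_iff₀ (by norm_num) (Real.log_pos (by norm_num))]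
      have : Real.log 3 ≤ Real.log (2 ^ 2) := Real.log_le_log (by norm_num) (by norm_num)
      rw [Real.log_pow] at this
      push_cast at this
      linarith
    linarith
  obtain ⟨E, hE⟩ : ∃ E : ℕ, E = 600 := ⟨_, rfl⟩
  obtain ⟨K, hK⟩ : ∃ K : ℝ, K = 3 ^ E := ⟨_, rfl⟩
  have hK0 : 0 < K := by rw [hK]; positivity
  have hE200 : ∀ J : ℕ, 200 * J + 400 * J = E * J := fun J => by rw [hE]; ring
  refine ⟨2 * Real.sqrt C₀ * (K * x) ^ (θ - 1 / 3000), fun γ N hN => ?_⟩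
  have hx0 : (0 : ℝ) < x := by linarith
  have hN1 : (1 : ℝ) ≤ N := by exact_mod_cast hN
  have hNx : 1 ≤ (N : ℝ) * x := by nlinarith
  -- the scale
  have hex : ∃ j : ℕ, (N : ℝ) * x ≤ 3 ^ (E * (j + 1)) := by
    obtain ⟨n, hn⟩ := pow_unbounded_of_one_lt ((N : ℝ) * x) (show (1 : ℝ) < 3 by norm_num)
    refine ⟨n, hn.le.trans (pow_le_pow_right₀ (by norm_num) ?_)⟩
    rw [hE]
    omega
  obtain ⟨j, hj1, hj2⟩ : ∃ j : ℕ, (N : ℝ) * x ≤ 3 ^ (E * (j + 1)) ∧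
      (3 : ℝ) ^ (E * (j + 1)) ≤ K * x * N := by
    refine ⟨Nat.find hex, Nat.find_spec hex, ?_⟩
    rcases Nat.eq_zero_or_pos (Nat.find hex) with h0 | h0
    · rw [h0]
      have : (3 : ℝ) ^ (E * (0 + 1)) = K := by rw [hK, zero_add, mul_one]
      rw [this, mul_assoc, mul_comm x]
      exact le_mul_of_one_le_right (by positivity) hNx
    · have h1 := Nat.find_min hex (show Nat.find hex - 1 < Nat.find hex by omega)
      rw [not_le, Nat.sub_add_cancel h0] at h1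
      calc (3 : ℝ) ^ (E * (Nat.find hex + 1)) = K * 3 ^ (E * Nat.find hex) := by
            rw [hK, ← pow_add]
            congr 1
            ring
        _ ≤ K * (N * x) := mul_le_mul_of_nonneg_left h1.le (by positivity)
        _ = _ := by ring
  set J := j + 1 with hJ
  have hfin : {n : ℕ | 1 ≤ n ∧ n ≤ N ∧ Mahler (n * x + γ)}.Finite :=
    (Set.finite_le_nat N).subset fun n hn => hn.2.1
  set A := hfin.toFinset with hA
  have hcard : {n : ℕ | 1 ≤ n ∧ n ≤ N ∧ Mahler (n * x + γ)}.ncard = #A :=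
    Set.ncard_eq_toFinset_card _ hfin
  have hkM : 200 * J + 400 * J = E * J := hE200 J
  have hsq : (#A : ℝ) ^ 2 ≤ 4 * 2 ^ (200 * J) * N2 (200 * J) (400 * J) (1 / 3 ^ (200 * J)) (1 / x) :=
    hCAU (200 * J) (400 * J) N x γ hx (by rw [hkM]; exact hj1) A fun n hn => by
      rw [hA, Set.Finite.mem_toFinset] at hn
      exact hn
  have hsq2 : (#A : ℝ) ^ 2 ≤ (2 * Real.sqrt C₀ * (2 ^ (E * J) * Real.sqrt ((3 / 5) ^ J))) ^ 2 := by
    refine (hsq.trans (mul_le_mul_of_nonneg_left (hN2 J (by omega))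
      (mul_nonneg (by norm_num) (pow_nonneg (by norm_num) _)))).trans (le_of_eq ?_)
    rw [← hE200 J]
    exact CNT.alg C₀ hC₀ (200 * J) (400 * J) J (by ring)
  have hle : (#A : ℝ) ≤ 2 * Real.sqrt C₀ * (2 ^ (E * J) * Real.sqrt ((3 / 5) ^ J)) :=
    le_of_sq_le_sq hsq2 (by positivity)
  rw [hcard, ← hθ]
  calc (#A : ℝ) ≤ 2 * Real.sqrt C₀ * (2 ^ (E * J) * Real.sqrt ((3 / 5) ^ J)) := hle
    _ ≤ 2 * Real.sqrt C₀ * ((3 : ℝ) ^ (E * J)) ^ (θ - 1 / 3000) :=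
        by
        rw [hE]
        exact mul_le_mul_of_nonneg_left (CNT.expo hθ J) (by positivity)
    _ ≤ 2 * Real.sqrt C₀ * (K * x * N) ^ (θ - 1 / 3000) :=
        mul_le_mul_of_nonneg_left (Real.rpow_le_rpow (by positivity) hj2 hθ1) (by positivity)
    _ = _ := by rw [Real.mul_rpow (by positivity) (by positivity)]; ring

theorem p_T2 (hCNT : Stmt_CNT) (hDIO : Stmt_DIO) : Stmt_T2 := by
  intro x hx hirr hL
  obtain ⟨m, hm⟩ := pow_unbounded_of_one_lt (1 / x) (show (1 : ℝ) < 3 by norm_num)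
  have hm1 : 1 ≤ 3 ^ m * x := by
    rw [div_lt_iff₀ hx] at hm
    exact hm.le
  obtain ⟨κ, hκ, hd⟩ := hDIO x hx hirr hL m
  obtain ⟨C, hC⟩ := hCNT (3 ^ m * x) κ hm1 hκ hd
  refine ⟨C, fun γ N hN => ?_⟩
  have hset : {n : ℕ | 1 ≤ n ∧ n ≤ N ∧ Mahler (n * x + γ)} =
      {n : ℕ | 1 ≤ n ∧ n ≤ N ∧ Mahler (n * (3 ^ m * x) + 3 ^ m * γ)} := by
    ext n
    have h3 : (3 : ℝ) ≠ 0 := by norm_num
    have hiff : Mahler (n * x + γ) ↔ Mahler (n * (3 ^ m * x) + 3 ^ m * γ) := by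
      constructor
      · rintro ⟨k, ε, hε, h⟩
        refine ⟨k + m, ε, hε, ?_⟩
        rw [zpow_add₀ h3, zpow_natCast]
        linear_combination 3 ^ m * h
      · rintro ⟨k, ε, hε, h⟩
        refine ⟨k - m, ε, hε, ?_⟩
        rw [zpow_sub₀ h3, zpow_natCast, div_mul_eq_mul_div, ← h]
        field_simp
    simp only [Set.mem_ofPred_eq]
    rw [hiff]
  rw [hset]
  exact hC _ N hN

end MahlerT2
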