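import Pool.Agent.Work.MP_48678a_t2.Defs

/-!
# MP_48678a_nt, T2: block DIF
-/

set_option autoImplicit false

namespace MahlerT2

open Finset

namespace DIF

private theorem sum_cons {k m : ℕ} (g : (Fin (k + 1) → Fin m) → ℕ) :
    ∑ x, g x = ∑ a : Fin m, ∑ y : Fin k → Fin m, g (Fin.cons a y) := by
  rw [← (Fin.consEquiv fun _ : Fin (k + 1) => Fin m).sum_comp, Fintype.sum_prod_type]
  rfl

private theorem val_cons {k : ℕ} (a : Fin 2) (y : Fin k → Fin 2) :
    val (Fin.cons a y : Fin (k + 1) → Fin 2) = ((a : ℕ) : ℤ) + 3 * val y := by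
  unfold val
  rw [Fin.sum_univ_succ, Finset.mul_sum]
  simp only [Fin.cons_zero, Fin.cons_succ, Fin.val_zero, Fin.val_succ, pow_zero, mul_one]
  congr 1
  refine Finset.sum_congr rfl fun i _ => ?_
  rw [pow_succ]
  ring

private theorem bal_cons {k : ℕ} (a : Fin 3) (y : Fin k → Fin 3) :
    bal (Fin.cons a y : Fin (k + 1) → Fin 3) = (((a : ℕ) : ℤ) - 1) + 3 * bal y := by
  unfold bal
  rw [Fin.sum_univ_succ, Finset.mul_sum]
  simp only [Fin.cons_zero, Fin.cons_succ, Fin.val_zero, Fin.val_succ, pow_zero, mul_one]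
  congr 1
  refine Finset.sum_congr rfl fun i _ => ?_
  rw [pow_succ]
  ring

private theorem nz_eq {k : ℕ} (y : Fin k → Fin 3) : nz y = ∑ i, if y i ≠ 1 then 1 else 0 := by
  unfold nz
  rw [Finset.card_filter]

private theorem nz_cons {k : ℕ} (a : Fin 3) (y : Fin k → Fin 3) :
    nz (Fin.cons a y : Fin (k + 1) → Fin 3) = (if a ≠ 1 then 1 else 0) + nz y := by
  rw [nz_eq, nz_eq, Fin.sum_univ_succ]
  simp only [Fin.cons_zero, Fin.cons_succ]

private theorem nz_le {k : ℕ} (y : Fin k → Fin 3) : nz y ≤ k := by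
  unfold nz
  calc #{i | y i ≠ 1} ≤ #(univ : Finset (Fin k)) := Finset.card_filter_le _ _
    _ = k := by simp

/-- the statement for the pairs as a double sum -/
private theorem main (k : ℕ) : ∀ f : ℤ → ℕ,
    ∑ x : Fin k → Fin 2, ∑ y : Fin k → Fin 2, f (val x - val y) =
      ∑ δ : Fin k → Fin 3, 2 ^ (k - nz δ) * f (bal δ) := by
  induction k with
  | zero =>
    intro f
    simp [val, bal, nz]
  | succ k ih =>
    intro f
    have h1 := ih fun z => f (3 * z)
    have h2 := ih fun z => f (-1 + 3 * z)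
    have h3 := ih fun z => f (1 + 3 * z)
    rw [sum_cons]
    simp only [sum_cons]
    rw [Fin.sum_univ_three]
    simp only [val_cons, bal_cons, nz_cons]
    have e0 : ∀ δ : Fin k → Fin 3, k + 1 - ((if (0 : Fin 3) ≠ 1 then 1 else 0) + nz δ) = k - nz δ := by
      intro δ
      have := nz_le δ
      rw [if_pos (by decide)]
      omega
    have e1 : ∀ δ : Fin k → Fin 3,
        k + 1 - ((if (1 : Fin 3) ≠ 1 then 1 else 0) + nz δ) = k - nz δ + 1 := by
      intro δ
      have := nz_le δ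
      rw [if_neg (by decide)]
      omega
    have e2 : ∀ δ : Fin k → Fin 3, k + 1 - ((if (2 : Fin 3) ≠ 1 then 1 else 0) + nz δ) = k - nz δ := by
      intro δ
      have := nz_le δ
      rw [if_pos (by decide)]
      omega
    simp only [e0, e1, e2]
    have r0 : ∑ δ : Fin k → Fin 3, 2 ^ (k - nz δ) * f ((((0 : Fin 3) : ℕ) : ℤ) - 1 + 3 * bal δ) =
        ∑ x : Fin k → Fin 2, ∑ y : Fin k → Fin 2, f (-1 + 3 * (val x - val y)) := by
      rw [h2]
      refine Finset.sum_congr rfl fun δ _ => ?_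
      congr 2
    have r1 : ∑ δ : Fin k → Fin 3, 2 ^ (k - nz δ + 1) *
          f ((((1 : Fin 3) : ℕ) : ℤ) - 1 + 3 * bal δ) =
        ∑ x : Fin k → Fin 2, ∑ y : Fin k → Fin 2, f (3 * (val x - val y)) +
        ∑ x : Fin k → Fin 2, ∑ y : Fin k → Fin 2, f (3 * (val x - val y)) := by
      rw [h1, ← Finset.sum_add_distrib]
      refine Finset.sum_congr rfl fun δ _ => ?_
      have : (((1 : Fin 3) : ℕ) : ℤ) - 1 + 3 * bal δ = 3 * bal δ := by simp
      rw [this, pow_succ]
      ring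
    have r2 : ∑ δ : Fin k → Fin 3, 2 ^ (k - nz δ) * f ((((2 : Fin 3) : ℕ) : ℤ) - 1 + 3 * bal δ) =
        ∑ x : Fin k → Fin 2, ∑ y : Fin k → Fin 2, f (1 + 3 * (val x - val y)) := by
      rw [h3]
      refine Finset.sum_congr rfl fun δ _ => ?_
      congr 2
    rw [r0, r1, r2]
    rw [Fin.sum_univ_two]
    simp only [Fin.sum_univ_two, Finset.sum_add_distrib]
    have g00 : ∀ x y : Fin k → Fin 2, (((0 : Fin 2) : ℕ) : ℤ) + 3 * val x -
        ((((0 : Fin 2) : ℕ) : ℤ) + 3 * val y) = 3 * (val x - val y) := by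
      intro x y; simp; ring
    have g01 : ∀ x y : Fin k → Fin 2, (((0 : Fin 2) : ℕ) : ℤ) + 3 * val x -
        ((((1 : Fin 2) : ℕ) : ℤ) + 3 * val y) = -1 + 3 * (val x - val y) := by
      intro x y; simp; ring
    have g10 : ∀ x y : Fin k → Fin 2, (((1 : Fin 2) : ℕ) : ℤ) + 3 * val x -
        ((((0 : Fin 2) : ℕ) : ℤ) + 3 * val y) = 1 + 3 * (val x - val y) := by
      intro x y; simp; ring
    have g11 : ∀ x y : Fin k → Fin 2, (((1 : Fin 2) : ℕ) : ℤ) + 3 * val x -
        ((((1 : Fin 2) : ℕ) : ℤ) + 3 * val y) = 3 * (val x - val y) := by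
      intro x y; simp; ring
    simp only [g00, g01, g10, g11]
    ring

end DIF

theorem p_DIF : Stmt_DIF := by
  intro k f
  rw [Fintype.sum_prod_type]
  exact DIF.main k f

end MahlerT2
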