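import Pool.Agent.Work.MP_48678a_t2.Defs

set_option autoImplicit false

namespace MahlerT2

open Finset

theorem DIO_round (x : ℝ) (n : ℕ) (hn : 1 ≤ n) (m : ℤ) :
    |x - (round ((n : ℝ) * x) : ℤ) / (n : ℝ)| ≤ |x - (m : ℝ) / n| := by
  have hn0 : (0 : ℝ) < n := by exact_mod_cast hn
  have h := round_le ((n : ℝ) * x) m
  have e1 : ∀ z : ℤ, |x - (z : ℝ) / n| = |(n : ℝ) * x - z| / n := by
    intro z
    rw [← abs_of_pos hn0, ← abs_div, abs_of_pos hn0]
    congr 1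
    field_simp
  rw [e1, e1]
  exact div_le_div_of_nonneg_right h hn0.le

theorem DIO_small (x p : ℝ) (hx : Irrational x) (N : ℕ) :
    ∃ κ : ℝ, 0 < κ ∧ ∀ n : ℕ, 1 ≤ n → n < N → ∀ m : ℤ, κ / (n : ℝ) ^ p ≤ |x - m / n| := by
  induction N with
  | zero => exact ⟨1, one_pos, fun n _ h => absurd h (by omega)⟩
  | succ N ih =>
    obtain ⟨κ, hκ, h⟩ := ih
    rcases Nat.eq_zero_or_pos N with hN | hN
    · exact ⟨κ, hκ, fun n h1 h2 => absurd h2 (by omega)⟩
    · have hN0 : (0 : ℝ) < N := by exact_mod_cast hN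
      have hpow : (0 : ℝ) < (N : ℝ) ^ p := Real.rpow_pos_of_pos hN0 p
      have hpos : 0 < |x - (round ((N : ℝ) * x) : ℤ) / (N : ℝ)| := by
        rw [abs_pos, sub_ne_zero]
        intro hc
        apply hx
        exact ⟨(round ((N : ℝ) * x) : ℚ) / N, by push_cast; exact hc.symm⟩
      refine ⟨min κ ((N : ℝ) ^ p * |x - (round ((N : ℝ) * x) : ℤ) / (N : ℝ)|),
        lt_min hκ (mul_pos hpow hpos), ?_⟩
      intro n h1 h2 m
      rcases Nat.lt_succ_iff_lt_or_eq.1 h2 with h3 | h3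
      · refine le_trans ?_ (h n h1 h3 m)
        exact div_le_div_of_nonneg_right (min_le_left _ _) (Real.rpow_nonneg (Nat.cast_nonneg _) _)
      · subst h3
        refine le_trans ?_ (DIO_round x n hN m)
        rw [div_le_iff₀ hpow]
        refine (min_le_right _ _).trans (le_of_eq (mul_comm _ _))

theorem DIO_base (x : ℝ) (hx : Irrational x) (h : ¬ LiouvilleWith (2 + 1 / 3000) x) :
    ∃ κ : ℝ, 0 < κ ∧ ∀ n : ℕ, 1 ≤ n → ∀ m : ℤ,
      κ / (n : ℝ) ^ ((2 : ℝ) + 1 / 3000) ≤ |x - m / n| := by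
  have h1 : ¬ ∃ᶠ n : ℕ in Filter.atTop, ∃ m : ℤ, x ≠ m / n ∧
      |x - m / n| < 1 / (n : ℝ) ^ ((2 : ℝ) + 1 / 3000) := fun hc => h ⟨1, hc⟩
  rw [Filter.not_frequently, Filter.eventually_atTop] at h1
  obtain ⟨n₀, hn₀⟩ := h1
  obtain ⟨κ, hκ, hs⟩ := DIO_small x ((2 : ℝ) + 1 / 3000) hx n₀
  refine ⟨min κ 1, lt_min hκ one_pos, ?_⟩
  intro n hn m
  have hnn : (0 : ℝ) ≤ (n : ℝ) ^ ((2 : ℝ) + 1 / 3000) := Real.rpow_nonneg (Nat.cast_nonneg _) _
  rcases lt_or_ge n n₀ with hc | hc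
  · exact (div_le_div_of_nonneg_right (min_le_left _ _) hnn).trans (hs n hn hc m)
  · refine (div_le_div_of_nonneg_right (min_le_right _ _) hnn).trans ?_
    by_contra hcon
    push Not at hcon
    refine hn₀ n hc ⟨m, ?_, hcon⟩
    intro hxm
    apply hx
    exact ⟨(m : ℚ) / n, by push_cast; exact hxm.symm⟩

theorem p_DIO : Stmt_DIO := by
  intro x hx0 hirr hL m
  obtain ⟨κ₀, hκ₀, hb⟩ := DIO_base x hirr hL
  obtain ⟨e, he⟩ : ∃ e : ℝ, e = (1 : ℝ) + 1 / 3000 := ⟨_, rfl⟩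
  have he0 : 0 < e := by rw [he]; norm_num
  have he2 : (2 : ℝ) + 1 / 3000 = e + 1 := by rw [he]; norm_num
  rw [he2] at hb
  rw [← he]
  obtain ⟨y, hy⟩ : ∃ y : ℝ, y = 1 / (3 ^ m * x) := ⟨_, rfl⟩
  have h3 : (0 : ℝ) < 3 ^ m := by positivity
  have hy0 : 0 < y := by rw [hy]; positivity
  rw [← hy]
  have hyx : y * (3 ^ m * x) = 1 := by
    rw [hy]; field_simp
  have hA : 0 < (3 ^ m * (y + 1)) ^ e := Real.rpow_pos_of_pos (by positivity) e
  refine ⟨min (min y 1) (y * κ₀ / (3 ^ m * (y + 1)) ^ e), ?_, ?_⟩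
  · exact lt_min (lt_min hy0 one_pos) (div_pos (mul_pos hy0 hκ₀) hA)
  intro d hd p
  have hd1 : (1 : ℝ) ≤ |(d : ℝ)| := by
    have : (1 : ℤ) ≤ |d| := Int.one_le_abs hd
    exact_mod_cast this
  have hd0 : (0 : ℝ) < |(d : ℝ)| := by linarith
  have hde : (1 : ℝ) ≤ |(d : ℝ)| ^ e := Real.one_le_rpow hd1 he0.le
  have hde0 : (0 : ℝ) < |(d : ℝ)| ^ e := by linarith
  have hy1 : min (min y 1) (y * κ₀ / (3 ^ m * (y + 1)) ^ e) ≤ y :=
    (min_le_left _ _).trans (min_le_left _ _)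
  have h11 : min (min y 1) (y * κ₀ / (3 ^ m * (y + 1)) ^ e) ≤ 1 :=
    (min_le_left _ _).trans (min_le_right _ _)
  have hk1 := min_le_right (min y 1) (y * κ₀ / (3 ^ m * (y + 1)) ^ e)
  have hm0 : 0 < min (min y 1) (y * κ₀ / (3 ^ m * (y + 1)) ^ e) :=
    lt_min (lt_min hy0 one_pos) (div_pos (mul_pos hy0 hκ₀) hA)
  obtain ⟨κ, hκdef⟩ : ∃ κ, κ = min (min y 1) (y * κ₀ / (3 ^ m * (y + 1)) ^ e) := ⟨_, rfl⟩
  rw [← hκdef] at hy1 h11 hk1 hm0 ⊢
  have hκd : κ / |(d : ℝ)| ^ e ≤ κ := div_le_self hm0.le hde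
  rcases eq_or_ne p 0 with hp | hp
  · subst hp
    rw [Int.cast_zero, sub_zero, abs_mul, abs_of_pos hy0]
    nlinarith
  · have hpa : (1 : ℝ) ≤ |(p : ℝ)| := by
      have : (1 : ℤ) ≤ |p| := Int.one_le_abs hp
      exact_mod_cast this
    rcases lt_or_ge (|(d : ℝ)| * y + 1) |(p : ℝ)| with hc | hc
    · have t1 : |(p : ℝ)| - |(d : ℝ) * y| ≤ |(d : ℝ) * y - p| := by
        rw [abs_sub_comm]
        exact abs_sub_abs_le_abs_sub _ _
      rw [abs_mul, abs_of_pos hy0] at t1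
      linarith
    · -- main case
      obtain ⟨q, hq⟩ : ∃ q : ℕ, q = p.natAbs * 3 ^ m := ⟨_, rfl⟩
      have hqr : (q : ℝ) = |(p : ℝ)| * 3 ^ m := by
        rw [hq]
        push_cast
        rw [Nat.cast_natAbs]
        push_cast
        rfl
      have hq1 : 1 ≤ q := by
        rw [hq]
        have : 0 < p.natAbs := Int.natAbs_pos.2 hp
        exact Nat.succ_le_of_lt (Nat.mul_pos this (by positivity))
      have hq0 : (0 : ℝ) < q := by exact_mod_cast hq1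
      have hqe : (0 : ℝ) < (q : ℝ) ^ e := Real.rpow_pos_of_pos hq0 e
      have hbound : κ₀ / (q : ℝ) ^ e ≤ |(d : ℝ) - p * (3 ^ m * x)| := by
        have key : ∀ d' : ℤ, κ₀ / (q : ℝ) ^ e ≤ |(q : ℝ) * x - d'| := by
          intro d'
          have h := hb q hq1 d'
          rw [Real.rpow_add_one hq0.ne'] at h
          have e1 : |(q : ℝ) * x - d'| = q * |x - d' / q| := by
            have e0 : (q : ℝ) * x - d' = q * (x - d' / q) := by field_simp
            rw [e0, abs_mul, abs_of_pos hq0]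
          rw [e1]
          calc κ₀ / (q : ℝ) ^ e = q * (κ₀ / ((q : ℝ) ^ e * q)) := by field_simp
            _ ≤ _ := mul_le_mul_of_nonneg_left h hq0.le
        rcases lt_or_ge p 0 with hneg | hpos
        · have h := key (-d)
          rw [hqr, abs_of_neg (by exact_mod_cast hneg)] at h
          have e2 : -(p : ℝ) * 3 ^ m * x - ((-d : ℤ) : ℝ) = (d : ℝ) - p * (3 ^ m * x) := by
            push_cast; ring
          rw [hqr, abs_of_neg (show (p : ℝ) < 0 by exact_mod_cast hneg)]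
          rw [e2] at h
          exact h
        · have h := key d
          have hp0 : (0 : ℝ) ≤ p := by exact_mod_cast hpos
          rw [hqr, abs_of_nonneg hp0] at h
          rw [hqr, abs_of_nonneg hp0, abs_sub_comm]
          have e2 : (p : ℝ) * 3 ^ m * x - (d : ℝ) = p * (3 ^ m * x) - d := by ring
          rw [e2] at h
          exact h
      have e3 : (d : ℝ) * y - p = y * ((d : ℝ) - p * (3 ^ m * x)) := by
        linear_combination (p : ℝ) * hyx
      rw [e3, abs_mul, abs_of_pos hy0]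
      have hqle : (q : ℝ) ≤ (3 ^ m * (y + 1)) * |(d : ℝ)| := by
        rw [hqr]
        nlinarith
      have hqle2 : (q : ℝ) ^ e ≤ (3 ^ m * (y + 1)) ^ e * |(d : ℝ)| ^ e := by
        rw [← Real.mul_rpow (by positivity) hd0.le]
        exact Real.rpow_le_rpow hq0.le hqle he0.le
      calc κ / |(d : ℝ)| ^ e ≤ (y * κ₀ / (3 ^ m * (y + 1)) ^ e) / |(d : ℝ)| ^ e :=
            div_le_div_of_nonneg_right hk1 hde0.le
        _ = y * (κ₀ / ((3 ^ m * (y + 1)) ^ e * |(d : ℝ)| ^ e)) := by field_simp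
        _ ≤ y * (κ₀ / (q : ℝ) ^ e) := by
            apply mul_le_mul_of_nonneg_left _ hy0.le
            exact div_le_div_of_nonneg_left hκ₀.le hqe hqle2
        _ ≤ _ := mul_le_mul_of_nonneg_left hbound hy0.le

end MahlerT2
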