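import Pool.Agent.Work.MP_48678a_t2.Defs

/-! # Block FEJ (helper65): the Fejer kernel -/

set_option autoImplicit false

namespace MahlerT2

open Finset

namespace FEJ

/-- `exp (2 π i u)` -/
noncomputable def ee (u : ℝ) : ℂ := Complex.exp (((2 * Real.pi * u : ℝ) : ℂ) * Complex.I)

theorem norm_ee (u : ℝ) : ‖ee u‖ = 1 := Complex.norm_exp_ofReal_mul_I _

theorem ee_zero : ee 0 = 1 := by
  unfold ee
  simp

theorem ee_add (u v : ℝ) : ee (u + v) = ee u * ee v := by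
  unfold ee
  rw [← Complex.exp_add]
  congr 1
  push_cast
  ring

theorem ee_int (n : ℤ) : ee (n : ℝ) = 1 := by
  unfold ee
  rw [Complex.exp_eq_one_iff]
  refine ⟨n, ?_⟩
  push_cast
  ring

theorem ee_re (u : ℝ) : (ee u).re = Real.cos (2 * Real.pi * u) := Complex.exp_ofReal_mul_I_re _

theorem conj_ee (u : ℝ) : (starRingEnd ℂ) (ee u) = ee (-u) := by
  unfold ee
  rw [← Complex.exp_conj]
  congr 1
  rw [map_mul, Complex.conj_ofReal, Complex.conj_I]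
  push_cast
  ring

theorem ee_sum {ι : Type} (s : Finset ι) (f : ι → ℝ) :
    ee (∑ i ∈ s, f i) = ∏ i ∈ s, ee (f i) := by
  classical
  induction s using Finset.induction_on with
  | empty => simp [ee_zero]
  | insert a s ha ih => rw [Finset.sum_insert ha, Finset.prod_insert ha, ee_add, ih]

theorem norm_one_add_ee (u : ℝ) : ‖1 + ee u‖ = 2 * |Real.cos (Real.pi * u)| := by
  have h1 : 1 + ee u = Complex.exp (((Real.pi * u : ℝ) : ℂ) * Complex.I) *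
      ((2 * Real.cos (Real.pi * u) : ℝ) : ℂ) := by
    unfold ee
    push_cast
    rw [Complex.two_cos, mul_add, ← Complex.exp_add, ← Complex.exp_add, add_comm]
    congr 1
    · congr 1
      ring
    · rw [show (Real.pi : ℂ) * u * Complex.I + -(Real.pi * u) * Complex.I = 0 by ring,
        Complex.exp_zero]
  rw [h1, norm_mul, Complex.norm_exp_ofReal_mul_I, one_mul, Complex.norm_real, Real.norm_eq_abs,
    abs_mul, abs_of_pos (by norm_num : (0 : ℝ) < 2)]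

theorem sum_eps (M : ℕ) (g Y : ℝ) :
    ‖∑ ε : Fin M → Fin 2, ee (g * ((val ε : ℝ) * Y))‖ = 2 ^ M * cosProd M (g * Y) := by
  have h1 : ∀ ε : Fin M → Fin 2, ee (g * ((val ε : ℝ) * Y)) =
      ∏ i : Fin M, ee (g * (((ε i : ℕ) : ℝ) * 3 ^ (i : ℕ) * Y)) := by
    intro ε
    rw [← ee_sum]
    congr 1
    unfold val
    push_cast
    rw [Finset.sum_mul, Finset.mul_sum]
  rw [Finset.sum_congr rfl fun ε _ => h1 ε]
  have h2 : ∑ ε : Fin M → Fin 2, ∏ i : Fin M, ee (g * (((ε i : ℕ) : ℝ) * 3 ^ (i : ℕ) * Y)) =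
      ∏ i : Fin M, ∑ a : Fin 2, ee (g * (((a : ℕ) : ℝ) * 3 ^ (i : ℕ) * Y)) := by
    rw [Finset.prod_univ_sum, Fintype.piFinset_univ]
  rw [h2, norm_prod]
  have h3 : ∀ i : Fin M, ‖∑ a : Fin 2, ee (g * (((a : ℕ) : ℝ) * 3 ^ (i : ℕ) * Y))‖ =
      2 * |Real.cos (Real.pi * (3 ^ (i : ℕ) * (g * Y)))| := by
    intro i
    rw [Fin.sum_univ_two]
    have e1 : g * ((((0 : Fin 2) : ℕ) : ℝ) * 3 ^ (i : ℕ) * Y) = 0 := by simp
    have e2 : g * ((((1 : Fin 2) : ℕ) : ℝ) * 3 ^ (i : ℕ) * Y) = 3 ^ (i : ℕ) * (g * Y) := by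
      simp only [Fin.val_one, Nat.cast_one]
      ring
    rw [e1, e2, ee_zero, norm_one_add_ee]
  rw [Finset.prod_congr rfl fun i _ => h3 i, Finset.prod_mul_distrib, Finset.prod_const,
    Finset.card_univ, Fintype.card_fin]
  congr 1
  unfold cosProd
  rw [Finset.prod_range]

theorem near_bound (H : ℕ) (η t : ℝ) (hH : 1 ≤ H) (hη : η ≤ 1 / (6 * H)) (ht : Near η t) :
    (1 : ℝ) ≤ 4 / (H : ℝ) ^ 2 * ‖∑ h ∈ range H, ee (h * t)‖ ^ 2 := by
  obtain ⟨p, hp⟩ := ht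
  have hH0 : (0 : ℝ) < H := by exact_mod_cast hH
  have hpi := Real.pi_pos
  have h1 : (H : ℝ) / 2 ≤ ‖∑ h ∈ range H, ee (h * t)‖ := by
    refine le_trans ?_ (Complex.re_le_norm _)
    rw [Complex.re_sum]
    have h2 : ∀ h ∈ range H, (1 / 2 : ℝ) ≤ (ee (h * t)).re := by
      intro h hh
      have hhH : (h : ℝ) ≤ H := by exact_mod_cast (Finset.mem_range.1 hh).le
      have e1 : (h : ℝ) * t = h * (t - p) + ((h * p : ℤ) : ℝ) := by push_cast; ring
      rw [e1, ee_add, ee_int, mul_one, ee_re, ← Real.cos_abs, ← Real.cos_pi_div_three]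
      refine Real.cos_le_cos_of_nonneg_of_le_pi (abs_nonneg _) (by linarith) ?_
      rw [abs_mul, abs_of_pos (by positivity : (0 : ℝ) < 2 * Real.pi), abs_mul,
        abs_of_nonneg (Nat.cast_nonneg h : (0 : ℝ) ≤ h)]
      have h3 : (h : ℝ) * |t - p| ≤ H * (1 / (6 * H)) :=
        mul_le_mul hhH (hp.trans hη) (abs_nonneg _) hH0.le
      have h4 : (H : ℝ) * (1 / (6 * H)) = 1 / 6 := by field_simp
      rw [h4] at h3
      nlinarith
    calc (H : ℝ) / 2 = ∑ _h ∈ range H, (1 / 2 : ℝ) := by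
          rw [Finset.sum_const, Finset.card_range, nsmul_eq_mul]; ring
      _ ≤ _ := Finset.sum_le_sum h2
  have h5 : ((H : ℝ) / 2) ^ 2 ≤ ‖∑ h ∈ range H, ee (h * t)‖ ^ 2 :=
    pow_le_pow_left₀ (by positivity) h1 2
  calc (1 : ℝ) = 4 / (H : ℝ) ^ 2 * ((H : ℝ) / 2) ^ 2 := by field_simp; norm_num
    _ ≤ _ := mul_le_mul_of_nonneg_left h5 (by positivity)

theorem key (M H : ℕ) (Y β : ℝ) :
    ∑ ε : Fin M → Fin 2, ‖∑ h ∈ range H, ee (h * ((val ε : ℝ) * Y + β))‖ ^ 2 ≤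
      2 ^ M * ∑ h ∈ range H, ∑ h' ∈ range H, cosProd M (((h : ℝ) - h') * Y) := by
  have e1 : ((∑ ε : Fin M → Fin 2, ‖∑ h ∈ range H, ee (h * ((val ε : ℝ) * Y + β))‖ ^ 2 : ℝ) : ℂ) =
      ∑ h ∈ range H, ∑ h' ∈ range H, ee (((h : ℝ) - h') * β) *
        ∑ ε : Fin M → Fin 2, ee (((h : ℝ) - h') * ((val ε : ℝ) * Y)) := by
    have e2 : ∀ ε : Fin M → Fin 2,
        ((‖∑ h ∈ range H, ee (h * ((val ε : ℝ) * Y + β))‖ ^ 2 : ℝ) : ℂ) =
        ∑ h ∈ range H, ∑ h' ∈ range H, ee (((h : ℝ) - h') * β) *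
          ee (((h : ℝ) - h') * ((val ε : ℝ) * Y)) := by
      intro ε
      push_cast
      rw [← Complex.mul_conj', map_sum, Finset.sum_mul_sum]
      refine Finset.sum_congr rfl fun h _ => Finset.sum_congr rfl fun h' _ => ?_
      rw [conj_ee, ← ee_add, ← ee_add]
      congr 1
      ring
    rw [Complex.ofReal_sum, Finset.sum_congr rfl fun ε _ => e2 ε, Finset.sum_comm]
    refine Finset.sum_congr rfl fun h _ => ?_
    rw [Finset.sum_comm]
    refine Finset.sum_congr rfl fun h' _ => ?_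
    rw [Finset.mul_sum]
  have h0 : 0 ≤ ∑ ε : Fin M → Fin 2, ‖∑ h ∈ range H, ee (h * ((val ε : ℝ) * Y + β))‖ ^ 2 :=
    Finset.sum_nonneg fun ε _ => by positivity
  calc ∑ ε : Fin M → Fin 2, ‖∑ h ∈ range H, ee (h * ((val ε : ℝ) * Y + β))‖ ^ 2
      = ‖((∑ ε : Fin M → Fin 2, ‖∑ h ∈ range H, ee (h * ((val ε : ℝ) * Y + β))‖ ^ 2 : ℝ) : ℂ)‖ := by
        rw [Complex.norm_real, Real.norm_eq_abs, abs_of_nonneg h0]
    _ = ‖∑ h ∈ range H, ∑ h' ∈ range H, ee (((h : ℝ) - h') * β) *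
          ∑ ε : Fin M → Fin 2, ee (((h : ℝ) - h') * ((val ε : ℝ) * Y))‖ := by rw [e1]
    _ ≤ ∑ h ∈ range H, ∑ h' ∈ range H, ‖ee (((h : ℝ) - h') * β) *
          ∑ ε : Fin M → Fin 2, ee (((h : ℝ) - h') * ((val ε : ℝ) * Y))‖ := by
        refine (norm_sum_le _ _).trans (Finset.sum_le_sum fun h _ => norm_sum_le _ _)
    _ = 2 ^ M * ∑ h ∈ range H, ∑ h' ∈ range H, cosProd M (((h : ℝ) - h') * Y) := by
        rw [Finset.mul_sum]
        refine Finset.sum_congr rfl fun h _ => ?_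
        rw [Finset.mul_sum]
        refine Finset.sum_congr rfl fun h' _ => ?_
        rw [norm_mul, norm_ee, one_mul, sum_eps]

end FEJ

open FEJ in
theorem p_FEJ : Stmt_FEJ := by
  intro M H Y β η hH hη
  calc (#{ε : Fin M → Fin 2 | Near η (val ε * Y + β)} : ℝ)
      = ∑ _ε ∈ Finset.univ.filter (fun ε : Fin M → Fin 2 => Near η (val ε * Y + β)), (1 : ℝ) := by
        rw [Finset.sum_const, nsmul_eq_mul, mul_one]
    _ ≤ ∑ ε ∈ Finset.univ.filter (fun ε : Fin M → Fin 2 => Near η (val ε * Y + β)),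
          4 / (H : ℝ) ^ 2 * ‖∑ h ∈ range H, ee (h * ((val ε : ℝ) * Y + β))‖ ^ 2 :=
        Finset.sum_le_sum fun ε hε => near_bound H η _ hH hη (Finset.mem_filter.1 hε).2
    _ ≤ ∑ ε : Fin M → Fin 2,
          4 / (H : ℝ) ^ 2 * ‖∑ h ∈ range H, ee (h * ((val ε : ℝ) * Y + β))‖ ^ 2 :=
        Finset.sum_le_sum_of_subset_of_nonneg (Finset.filter_subset _ _)
          fun ε _ _ => by positivity
    _ = 4 / (H : ℝ) ^ 2 *
          ∑ ε : Fin M → Fin 2, ‖∑ h ∈ range H, ee (h * ((val ε : ℝ) * Y + β))‖ ^ 2 := by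
        rw [Finset.mul_sum]
    _ ≤ 4 / (H : ℝ) ^ 2 *
          (2 ^ M * ∑ h ∈ range H, ∑ h' ∈ range H, cosProd M (((h : ℝ) - h') * Y)) :=
        mul_le_mul_of_nonneg_left (key M H Y β) (by positivity)
    _ = _ := by ring

end MahlerT2
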