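import Pool.Agent.Work.MP_48678a_t2.Defs

set_option autoImplicit false

namespace MahlerT2

open Finset

theorem p_FEW : Stmt_FEW := by
  classical
  intro k J μ hμ
  have hμ0 : 0 < μ := by linarith
  have hinv : 1 / μ ≤ 1 := by rw [div_le_one hμ0]; exact hμ
  have hinv0 : 0 < 1 / μ := by positivity
  -- the generating sum
  have hsum : ∑ δ : Fin k → Fin 3, (1 / μ) ^ nz δ = (1 + 2 / μ) ^ k := by
    have h1 : ∀ δ : Fin k → Fin 3, (1 / μ) ^ nz δ = ∏ i, (if δ i ≠ 1 then 1 / μ else 1) := by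
      intro δ
      rw [Finset.prod_ite, Finset.prod_const, Finset.prod_const_one, mul_one, nz]
    rw [Finset.sum_congr rfl fun δ _ => h1 δ]
    have h2 := (Finset.prod_univ_sum (fun _ : Fin k => (Finset.univ : Finset (Fin 3)))
      (fun _ j => if j ≠ 1 then 1 / μ else 1)).symm
    rw [Fintype.piFinset_univ] at h2
    rw [h2, Finset.prod_const, Finset.card_univ, Fintype.card_fin]
    congr 1
    rw [Fin.sum_univ_three]
    simp
    ring
  rw [← hsum, Finset.mul_sum]
  calc (#{δ : Fin k → Fin 3 | nz δ ≤ J} : ℝ)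
      = ∑ δ ∈ (Finset.univ.filter fun δ : Fin k → Fin 3 => nz δ ≤ J), (1 : ℝ) := by simp
    _ ≤ ∑ δ ∈ (Finset.univ.filter fun δ : Fin k → Fin 3 => nz δ ≤ J), μ ^ J * (1 / μ) ^ nz δ := by
        refine Finset.sum_le_sum fun δ hδ => ?_
        have hle : nz δ ≤ J := (Finset.mem_filter.mp hδ).2
        calc (1 : ℝ) = μ ^ J * (1 / μ) ^ J := by rw [← mul_pow, mul_one_div_cancel hμ0.ne', one_pow]
          _ ≤ μ ^ J * (1 / μ) ^ nz δ :=
              mul_le_mul_of_nonneg_left (pow_le_pow_of_le_one hinv0.le hinv hle) (by positivity)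
    _ ≤ _ := Finset.sum_le_sum_of_subset_of_nonneg (Finset.filter_subset _ _)
        fun δ _ _ => by positivity

end MahlerT2
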