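import Pool.Agent.Work.MP_48678a_t2.Defs

set_option autoImplicit false

namespace MahlerT2

namespace INJ

theorem val_succ {k : ℕ} (ε : Fin (k + 1) → Fin 2) :
    val ε = ((ε 0 : ℕ) : ℤ) + 3 * val (fun i => ε i.succ) := by
  unfold val
  rw [Fin.sum_univ_succ, Finset.mul_sum]
  congr 1
  · simp
  · apply Finset.sum_congr rfl
    intro i _
    rw [Fin.val_succ, pow_succ]
    ring

theorem bal_succ {k : ℕ} (δ : Fin (k + 1) → Fin 3) :
    bal δ = (((δ 0 : ℕ) : ℤ) - 1) + 3 * bal (fun i => δ i.succ) := by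
  unfold bal
  rw [Fin.sum_univ_succ, Finset.mul_sum]
  congr 1
  · simp
  · apply Finset.sum_congr rfl
    intro i _
    rw [Fin.val_succ, pow_succ]
    ring

theorem val_inj (k : ℕ) : Function.Injective (val : (Fin k → Fin 2) → ℤ) := by
  induction k with
  | zero =>
    intro a b _
    exact Subsingleton.elim _ _
  | succ k ih =>
    intro a b hab
    rw [val_succ, val_succ] at hab
    have ha : (a 0 : ℕ) < 2 := (a 0).isLt
    have hb : (b 0 : ℕ) < 2 := (b 0).isLt
    have h0 : (a 0 : ℕ) = (b 0 : ℕ) := by omega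
    have ht : val (fun i => a i.succ) = val (fun i => b i.succ) := by omega
    have h1 := ih ht
    funext i
    refine Fin.cases ?_ ?_ i
    · exact Fin.ext h0
    · intro j
      exact congrFun h1 j

theorem bal_inj (k : ℕ) : Function.Injective (bal : (Fin k → Fin 3) → ℤ) := by
  induction k with
  | zero =>
    intro a b _
    exact Subsingleton.elim _ _
  | succ k ih =>
    intro a b hab
    rw [bal_succ, bal_succ] at hab
    have ha : (a 0 : ℕ) < 3 := (a 0).isLt
    have hb : (b 0 : ℕ) < 3 := (b 0).isLt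
    have h0 : (a 0 : ℕ) = (b 0 : ℕ) := by omega
    have ht : bal (fun i => a i.succ) = bal (fun i => b i.succ) := by omega
    have h1 := ih ht
    funext i
    refine Fin.cases ?_ ?_ i
    · exact Fin.ext h0
    · intro j
      exact congrFun h1 j

theorem val_bd (k : ℕ) : ∀ ε : Fin k → Fin 2, 0 ≤ val ε ∧ 2 * val ε < 3 ^ k := by
  induction k with
  | zero =>
    intro ε
    unfold val
    simp
  | succ k ih =>
    intro ε
    rw [val_succ, pow_succ]
    have ha : (ε 0 : ℕ) < 2 := (ε 0).isLt
    have h := ih (fun i => ε i.succ)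
    obtain ⟨h1, h2⟩ := h
    constructor <;> omega

theorem bal_bd (k : ℕ) : ∀ δ : Fin k → Fin 3, 2 * |bal δ| < 3 ^ k := by
  induction k with
  | zero =>
    intro δ
    unfold bal
    simp
  | succ k ih =>
    intro δ
    rw [bal_succ, pow_succ]
    have ha : (δ 0 : ℕ) < 3 := (δ 0).isLt
    have h := ih (fun i => δ i.succ)
    have h1 : |bal (fun i => δ i.succ)| = max (bal (fun i => δ i.succ))
      (-bal (fun i => δ i.succ)) := rfl
    have h2 := le_abs_self (bal (fun i => δ i.succ))
    have h3 := neg_le_abs (bal (fun i => δ i.succ))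
    rcases abs_cases ((((δ 0 : ℕ) : ℤ) - 1) + 3 * bal (fun i => δ i.succ)) with ⟨h4, _⟩ | ⟨h4, _⟩
    · rw [h4]
      omega
    · rw [h4]
      omega

end INJ

theorem p_INJ : Stmt_INJ := fun k =>
  ⟨INJ.val_inj k, INJ.bal_inj k, INJ.val_bd k, INJ.bal_bd k⟩

end MahlerT2
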