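import Pool.Agent.Work.MP_48678a_t2.B_DIF

/-!
# MP_48678a_nt, T2: block NTW
-/

set_option autoImplicit false

namespace MahlerT2

open Finset

namespace NTW

/-- the number of high parts for the low difference `m` -/
private noncomputable def cnt (k M : ℕ) (η y : ℝ) (m : ℤ) : ℕ :=
  #{x : Pairs M | Near η (((3 ^ k * (val x.1 - val x.2) + m : ℤ) : ℝ) * y)}

private theorem N2_eq (k M : ℕ) (η y : ℝ) :
    N2 k M η y = ∑ x : Pairs k, cnt k M η y (val x.1 - val x.2) := by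
  unfold N2 cnt
  rw [Finset.card_filter, Fintype.sum_prod_type]
  refine Finset.sum_congr rfl fun a _ => ?_
  rw [Finset.card_filter]

private theorem cnt_le (k M : ℕ) (η y S : ℝ)
    (hS : ∀ β : ℝ, (#{ε : Fin M → Fin 2 | Near η (val ε * (3 ^ k * y) + β)} : ℝ) ≤ S) (m : ℤ) :
    (cnt k M η y m : ℝ) ≤ 2 ^ M * S := by
  have h : cnt k M η y m = ∑ b : Fin M → Fin 2,
      #{a : Fin M → Fin 2 | Near η (val a * (3 ^ k * y) + ((m : ℝ) - 3 ^ k * val b) * y)} := by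
    unfold cnt
    rw [Finset.card_filter, Fintype.sum_prod_type_right]
    refine Finset.sum_congr rfl fun b _ => ?_
    rw [Finset.card_filter]
    refine Finset.sum_congr rfl fun a _ => ?_
    have : (((3 ^ k * (val a - val b) + m : ℤ) : ℝ) * y) =
        val a * (3 ^ k * y) + ((m : ℝ) - 3 ^ k * val b) * y := by
      push_cast
      ring
    simp only [this]
  rw [h, Nat.cast_sum]
  calc (∑ b : Fin M → Fin 2,
      ((#{a : Fin M → Fin 2 | Near η (val a * (3 ^ k * y) + ((m : ℝ) - 3 ^ k * val b) * y)} : ℕ)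
        : ℝ)) ≤ ∑ _b : Fin M → Fin 2, S := Finset.sum_le_sum fun b _ => hS _
    _ = 2 ^ M * S := by simp

private theorem sum_cnt_le (k M : ℕ) (η y R : ℝ)
    (hR : ∀ β : ℝ, (#{δ : Fin k → Fin 3 | Near η (bal δ * y + β)} : ℝ) ≤ R) :
    ∑ δ : Fin k → Fin 3, (cnt k M η y (bal δ) : ℝ) ≤ 4 ^ M * R := by
  have h : ∑ δ : Fin k → Fin 3, cnt k M η y (bal δ) = ∑ x : Pairs M,
      #{δ : Fin k → Fin 3 | Near η (bal δ * y + (3 ^ k * ((val x.1 : ℝ) - val x.2)) * y)} := by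
    simp only [cnt, Finset.card_filter]
    rw [Finset.sum_comm]
    refine Finset.sum_congr rfl fun x _ => Finset.sum_congr rfl fun δ _ => ?_
    have : (((3 ^ k * (val x.1 - val x.2) + bal δ : ℤ) : ℝ) * y) =
        bal δ * y + (3 ^ k * ((val x.1 : ℝ) - val x.2)) * y := by
      push_cast
      ring
    simp only [this]
  rw [← Nat.cast_sum, h, Nat.cast_sum]
  calc (∑ x : Pairs M,
      ((#{δ : Fin k → Fin 3 | Near η (bal δ * y + (3 ^ k * ((val x.1 : ℝ) - val x.2)) * y)} : ℕ)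
        : ℝ)) ≤ ∑ _x : Pairs M, R := Finset.sum_le_sum fun x _ => hR _
    _ = 4 ^ M * R := by
      simp only [Finset.sum_const, Finset.card_univ, Fintype.card_prod, Fintype.card_fun,
        Fintype.card_fin, nsmul_eq_mul]
      push_cast
      rw [← mul_pow]
      norm_num

end NTW

theorem p_NTW : Stmt_NTW := by
  intro k M t η y R S htk hR hS
  have hS0 : 0 ≤ S := le_trans (Nat.cast_nonneg _) (hS 0)
  have h1 : (N2 k M η y : ℝ) = ∑ δ : Fin k → Fin 3,
      (2 : ℝ) ^ (k - nz δ) * (NTW.cnt k M η y (bal δ) : ℝ) := by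
    rw [NTW.N2_eq, p_DIF k (fun m => NTW.cnt k M η y m)]
    push_cast
    rfl
  have h2 : ∀ δ : Fin k → Fin 3, (2 : ℝ) ^ (k - nz δ) * (NTW.cnt k M η y (bal δ) : ℝ) ≤
      2 ^ (k - t) * (NTW.cnt k M η y (bal δ) : ℝ) +
        (if nz δ ≤ t then 2 ^ k * 2 ^ M * S else 0) := by
    intro δ
    have hc0 : (0 : ℝ) ≤ (NTW.cnt k M η y (bal δ) : ℝ) := Nat.cast_nonneg _
    split_ifs with h
    · have h3 := NTW.cnt_le k M η y S hS (bal δ)
      have h4 : (2 : ℝ) ^ (k - nz δ) ≤ 2 ^ k :=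
        pow_le_pow_right₀ (by norm_num) (Nat.sub_le _ _)
      have h5 : (2 : ℝ) ^ (k - nz δ) * (NTW.cnt k M η y (bal δ) : ℝ) ≤ 2 ^ k * (2 ^ M * S) :=
        mul_le_mul h4 h3 hc0 (by positivity)
      have h6 : (0 : ℝ) ≤ 2 ^ (k - t) * (NTW.cnt k M η y (bal δ) : ℝ) := by positivity
      calc _ ≤ 2 ^ k * (2 ^ M * S) := h5
        _ = 2 ^ k * 2 ^ M * S := by ring
        _ ≤ _ := le_add_of_nonneg_left h6
    · rw [add_zero]
      refine mul_le_mul_of_nonneg_right ?_ hc0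
      exact pow_le_pow_right₀ (by norm_num) (by omega)
  rw [h1]
  calc _ ≤ ∑ δ : Fin k → Fin 3, (2 ^ (k - t) * (NTW.cnt k M η y (bal δ) : ℝ) +
        (if nz δ ≤ t then 2 ^ k * 2 ^ M * S else 0)) := Finset.sum_le_sum fun δ _ => h2 δ
    _ = 2 ^ (k - t) * (∑ δ : Fin k → Fin 3, (NTW.cnt k M η y (bal δ) : ℝ)) +
        2 ^ k * 2 ^ M * S * #{δ : Fin k → Fin 3 | nz δ ≤ t} := by
      rw [Finset.sum_add_distrib, ← Finset.mul_sum, ← Finset.sum_filter, Finset.sum_const,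
        nsmul_eq_mul]
      ring
    _ ≤ 2 ^ (k - t) * (4 ^ M * R) + 2 ^ k * 2 ^ M * S * #{δ : Fin k → Fin 3 | nz δ ≤ t} := by
      have := NTW.sum_cnt_le k M η y R hR
      gcongr
    _ = _ := by ring

end MahlerT2
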