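import Pool.Agent.Work.MP_48678a_t2.Defs

/-!
# Block NUM
-/

set_option autoImplicit false

namespace MahlerT2

open Finset

namespace NUM

theorem lower_d (κ : ℝ) (hκ : 0 < κ) (d : ℝ) (hd : 0 < d) (z X : ℝ) (hX : 0 < X)
    (h1 : κ / d ^ ((1 : ℝ) + 1 / 3000) ≤ z) (h2 : z ≤ 1 / X) :
    (κ * X) ^ ((3000 : ℝ) / 3001) ≤ d := by
  have hde : 0 < d ^ ((1 : ℝ) + 1 / 3000) := Real.rpow_pos_of_pos hd _
  have h3 : κ / d ^ ((1 : ℝ) + 1 / 3000) ≤ 1 / X := h1.trans h2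
  rw [div_le_div_iff₀ hde hX, one_mul] at h3
  have h4 := Real.rpow_le_rpow (by positivity) h3 (by norm_num : (0 : ℝ) ≤ 3000 / 3001)
  rw [← Real.rpow_mul hd.le] at h4
  have h5 : ((1 : ℝ) + 1 / 3000) * (3000 / 3001) = 1 := by norm_num
  rw [h5, Real.rpow_one] at h4
  exact h4

theorem pow_root (j : ℕ) : ((3 : ℝ) ^ (200 * j)) ^ ((1 : ℝ) / 3001) ≤ (6 / 5) ^ j := by
  have h1 : (3 : ℝ) ^ (200 * j) ≤ ((6 / 5 : ℝ) ^ j) ^ 3001 := by
    rw [pow_mul (3 : ℝ) 200 j, ← pow_mul (6 / 5 : ℝ) j 3001, mul_comm j 3001,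
      pow_mul (6 / 5 : ℝ) 3001 j]
    refine pow_le_pow_left₀ (by positivity) ?_ j
    calc (3 : ℝ) ^ 200 ≤ ((6 / 5 : ℝ) ^ 15) ^ 200 :=
          pow_le_pow_left₀ (by norm_num) (by norm_num) 200
      _ = (6 / 5 : ℝ) ^ 3000 := by rw [← pow_mul]
      _ ≤ (6 / 5 : ℝ) ^ 3001 := pow_le_pow_right₀ (by norm_num) (by norm_num)
  have h2 := Real.rpow_le_rpow (by positivity) h1 (by norm_num : (0 : ℝ) ≤ 1 / 3001)
  refine h2.trans (le_of_eq ?_)
  rw [← Real.rpow_natCast ((6 / 5 : ℝ) ^ j) 3001, ← Real.rpow_mul (by positivity)]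
  norm_num

theorem num1 : (256 : ℝ) * (129 / 128) ^ 200 * (3 / 4) ^ 29 ≤ 3 / 5 := by norm_num

theorem num2 : (256 : ℝ) * (129 / 128) ^ 200 * (100 ^ 29 * (6 / 5) ^ 400) / 3 ^ 199 ≤ 3 / 5 := by
  have h : (6 / 5 : ℝ) ^ 400 = ((6 / 5 : ℝ) ^ 200) ^ 2 := by rw [← pow_mul]
  rw [h]
  norm_num

theorem assemble (Xf R S F C1 C2 : ℝ) (j : ℕ) (hC2 : 0 ≤ C2)
    (hR : R ≤ C1 * (6 / 5) ^ j)
    (hS : S ≤ 4 * 2 ^ (400 * j) * ((3 / 4) ^ (29 * j) + C2 / 3 ^ (199 * j) *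
      (100 ^ (29 * j) * (6 / 5) ^ (400 * j))))
    (hF0 : 0 ≤ F) (hF : F ≤ 256 ^ j * (1 + 2 / 256) ^ (200 * j))
    (hX : Xf ≤ 2 ^ (200 * j - j) * 4 ^ (400 * j) * R + 2 ^ (200 * j) * 2 ^ (400 * j) * S * F) :
    Xf ≤ (C1 + 4 + 4 * C2) * (4 ^ (400 * j) * 2 ^ (200 * j) * (3 / 5) ^ j) := by
  have e1 : (2 : ℝ) ^ (200 * j - j) = 2 ^ (200 * j) * (1 / 2) ^ j := by
    have h1 : 200 * j = (200 * j - j) + j := by omega
    have h2 : (2 : ℝ) ^ (200 * j) = 2 ^ (200 * j - j) * 2 ^ j := by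
      rw [← pow_add]; congr 1
    rw [h2, mul_assoc, ← mul_pow]
    norm_num
  have hA : (2 : ℝ) ^ (200 * j - j) * 4 ^ (400 * j) * R ≤
      C1 * (4 ^ (400 * j) * 2 ^ (200 * j) * (3 / 5) ^ j) := by
    calc (2 : ℝ) ^ (200 * j - j) * 4 ^ (400 * j) * R
        ≤ 2 ^ (200 * j - j) * 4 ^ (400 * j) * (C1 * (6 / 5) ^ j) :=
          mul_le_mul_of_nonneg_left hR (by positivity)
      _ = C1 * (4 ^ (400 * j) * 2 ^ (200 * j) * ((1 / 2) ^ j * (6 / 5) ^ j)) := by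
          rw [e1]; ring
      _ = C1 * (4 ^ (400 * j) * 2 ^ (200 * j) * (3 / 5) ^ j) := by
          rw [← mul_pow]; norm_num
  have e4 : (4 : ℝ) ^ (400 * j) = 2 ^ (400 * j) * 2 ^ (400 * j) := by
    rw [← mul_pow]; norm_num
  have hB : (2 : ℝ) ^ (200 * j) * 2 ^ (400 * j) * S * F ≤
      (4 + 4 * C2) * (4 ^ (400 * j) * 2 ^ (200 * j) * (3 / 5) ^ j) := by
    have h256 : (1 : ℝ) + 2 / 256 = 129 / 128 := by norm_num
    rw [h256] at hF
    have hF' : F ≤ (256 * (129 / 128) ^ 200) ^ j := by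
      refine hF.trans (le_of_eq ?_)
      rw [mul_pow, pow_mul]
    set G : ℝ := (256 * (129 / 128 : ℝ) ^ 200) ^ j with hG
    have hG0 : 0 ≤ G := by positivity
    have hS' : S * F ≤ (4 * 2 ^ (400 * j) * ((3 / 4) ^ (29 * j) + C2 / 3 ^ (199 * j) *
      (100 ^ (29 * j) * (6 / 5) ^ (400 * j)))) * G :=
      (mul_le_mul_of_nonneg_right hS hF0).trans (mul_le_mul_of_nonneg_left hF' (by positivity))
    have t1 : (3 / 4 : ℝ) ^ (29 * j) * G ≤ (3 / 5) ^ j := by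
      calc (3 / 4 : ℝ) ^ (29 * j) * G = ((256 : ℝ) * (129 / 128) ^ 200 * (3 / 4) ^ 29) ^ j := by
            rw [hG, pow_mul, ← mul_pow]
            congr 1
            ring
        _ ≤ (3 / 5) ^ j := pow_le_pow_left₀ (by positivity) num1 j
    have t2 : (1 : ℝ) / 3 ^ (199 * j) * (100 ^ (29 * j) * (6 / 5) ^ (400 * j)) * G ≤
        (3 / 5) ^ j := by
      calc (1 : ℝ) / 3 ^ (199 * j) * (100 ^ (29 * j) * (6 / 5) ^ (400 * j)) * G
          = ((256 : ℝ) * (129 / 128) ^ 200 * (100 ^ 29 * (6 / 5) ^ 400) / 3 ^ 199) ^ j := by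
            rw [hG, pow_mul (3 : ℝ), pow_mul (100 : ℝ), pow_mul (6 / 5 : ℝ), ← mul_pow,
              ← one_div_pow, ← mul_pow, ← mul_pow]
            congr 1
            ring
        _ ≤ (3 / 5) ^ j := pow_le_pow_left₀ (by positivity) num2 j
    calc (2 : ℝ) ^ (200 * j) * 2 ^ (400 * j) * S * F
        = 2 ^ (200 * j) * 2 ^ (400 * j) * (S * F) := by ring
      _ ≤ 2 ^ (200 * j) * 2 ^ (400 * j) * ((4 * 2 ^ (400 * j) * ((3 / 4) ^ (29 * j) +
            C2 / 3 ^ (199 * j) * (100 ^ (29 * j) * (6 / 5) ^ (400 * j)))) * G) :=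
          mul_le_mul_of_nonneg_left hS' (by positivity)
      _ = 4 * (4 ^ (400 * j) * 2 ^ (200 * j)) * ((3 / 4 : ℝ) ^ (29 * j) * G) +
            4 * C2 * (4 ^ (400 * j) * 2 ^ (200 * j)) *
              ((1 : ℝ) / 3 ^ (199 * j) * (100 ^ (29 * j) * (6 / 5) ^ (400 * j)) * G) := by
          rw [e4]; ring
      _ ≤ 4 * (4 ^ (400 * j) * 2 ^ (200 * j)) * (3 / 5) ^ j +
            4 * C2 * (4 ^ (400 * j) * 2 ^ (200 * j)) * (3 / 5) ^ j :=
          add_le_add (mul_le_mul_of_nonneg_left t1 (by positivity))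
            (mul_le_mul_of_nonneg_left t2 (by positivity))
      _ = (4 + 4 * C2) * (4 ^ (400 * j) * 2 ^ (200 * j) * (3 / 5) ^ j) := by ring
  calc Xf ≤ _ := hX
    _ ≤ C1 * (4 ^ (400 * j) * 2 ^ (200 * j) * (3 / 5) ^ j) +
        (4 + 4 * C2) * (4 ^ (400 * j) * 2 ^ (200 * j) * (3 / 5) ^ j) := add_le_add hA hB
    _ = _ := by ring

end NUM

theorem p_NUM : Stmt_NTW → Stmt_SBD → Stmt_RBD → Stmt_FEW → Stmt_NUM := by
  intro hNTW hSBD hRBD hFEW κ y hκ hd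
  set a : ℝ := 3000 / 3001 with ha
  set C1 : ℝ := ((κ / 2) ^ a)⁻¹ + 1 with hC1
  set C2 : ℝ := (κ ^ a)⁻¹ + 9 with hC2
  have hk2 : 0 < (κ / 2) ^ a := Real.rpow_pos_of_pos (by positivity) _
  have hka : 0 < κ ^ a := Real.rpow_pos_of_pos hκ _
  have hC1p : 0 ≤ C1 := by positivity
  have hC2p : 0 ≤ C2 := by positivity
  refine ⟨C1 + 4 + 4 * C2, by positivity, ?_⟩
  intro j hj
  -- the bound R
  set D : ℝ := (κ * (3 ^ (200 * j) / 2)) ^ a with hD
  have hDp : 0 < D := Real.rpow_pos_of_pos (by positivity) _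
  have hR : ∀ β : ℝ, (#{δ : Fin (200 * j) → Fin 3 | Near (1 / 3 ^ (200 * j)) (bal δ * y + β)} : ℝ) ≤
      3 ^ (200 * j) / D + 1 := by
    intro β
    refine hRBD (200 * j) y β (1 / 3 ^ (200 * j)) D hDp ?_
    intro d hd0 _ hn
    obtain ⟨p, hp⟩ := hn
    have hdp : 0 < |(d : ℝ)| := abs_pos.2 (by exact_mod_cast hd0)
    refine NUM.lower_d κ hκ |(d : ℝ)| hdp (|d * y - p|) (3 ^ (200 * j) / 2) (by positivity)
      (hd d hd0 p) (hp.trans (le_of_eq ?_))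
    rw [one_div_div, mul_one_div]
  have hRb : (3 : ℝ) ^ (200 * j) / D + 1 ≤ C1 * (6 / 5) ^ j := by
    have h1 : D = (κ / 2) ^ a * ((3 : ℝ) ^ (200 * j)) ^ a := by
      rw [hD, ← Real.mul_rpow (by positivity) (by positivity)]
      congr 1
      ring
    have h2 : ((3 : ℝ) ^ (200 * j)) = ((3 : ℝ) ^ (200 * j)) ^ a *
        ((3 : ℝ) ^ (200 * j)) ^ ((1 : ℝ) / 3001) := by
      rw [← Real.rpow_add (by positivity)]
      have : a + 1 / 3001 = 1 := by rw [ha]; norm_num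
      rw [this, Real.rpow_one]
    have h3 : (3 : ℝ) ^ (200 * j) / D =
        ((κ / 2) ^ a)⁻¹ * ((3 : ℝ) ^ (200 * j)) ^ ((1 : ℝ) / 3001) := by
      have hT : 0 < ((3 : ℝ) ^ (200 * j)) ^ a := Real.rpow_pos_of_pos (by positivity) _
      rw [h1, div_eq_iff (by positivity)]
      calc (3 : ℝ) ^ (200 * j) = ((3 : ℝ) ^ (200 * j)) ^ a *
            ((3 : ℝ) ^ (200 * j)) ^ ((1 : ℝ) / 3001) := h2
        _ = _ := by
          field_simp
    have h4 : (1 : ℝ) ≤ (6 / 5) ^ j := one_le_pow₀ (by norm_num)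
    rw [h3, hC1, add_mul, one_mul]
    exact add_le_add (mul_le_mul_of_nonneg_left (NUM.pow_root j) (by positivity)) h4
  -- the bound S
  have h200 : 200 * j = (200 * j - 2) + 2 := by omega
  have hS : ∀ β : ℝ, (#{ε : Fin (400 * j) → Fin 2 | Near (1 / 3 ^ (200 * j))
      (val ε * (3 ^ (200 * j) * y) + β)} : ℝ) ≤
      4 * 2 ^ (400 * j) * ((3 / 4) ^ (29 * j) + C2 / 3 ^ (199 * j) *
      (100 ^ (29 * j) * (6 / 5) ^ (400 * j))) := by
    intro β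
    have hH : (1 : ℕ) ≤ 3 ^ (200 * j - 2) := Nat.one_le_pow _ _ (by norm_num)
    have hHr : (((3 ^ (200 * j - 2) : ℕ) : ℝ)) * 9 = 3 ^ (200 * j) := by
      push_cast
      conv_rhs => rw [h200, pow_add]
      norm_num
    have hHpos : (0 : ℝ) < ((3 ^ (200 * j - 2) : ℕ) : ℝ) := by exact_mod_cast hH
    have hη : (1 : ℝ) / 3 ^ (200 * j) ≤ 1 / (6 * ((3 ^ (200 * j - 2) : ℕ) : ℝ)) := by
      refine one_div_le_one_div_of_le (by positivity) ?_
      rw [← hHr]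
      linarith
    have hD' : 0 < κ ^ a * 3 ^ (199 * j) := by positivity
    have hmain := hSBD (400 * j) (3 ^ (200 * j - 2)) (29 * j) (3 ^ (200 * j) * y) β
      (1 / 3 ^ (200 * j)) (κ ^ a * 3 ^ (199 * j)) hH hη hD' (by
        intro d hd0 _ hn
        obtain ⟨p, hp⟩ := hn
        have hdp : 0 < |(d : ℝ)| := abs_pos.2 (by exact_mod_cast hd0)
        have hd3 : d * 3 ^ (200 * j) ≠ 0 := mul_ne_zero hd0 (by positivity)
        have h1 := hd (d * 3 ^ (200 * j)) hd3 p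
        have hcast : ((d * 3 ^ (200 * j) : ℤ) : ℝ) = (d : ℝ) * 3 ^ (200 * j) := by push_cast; ring
        rw [hcast, abs_mul, abs_of_pos (by positivity : (0 : ℝ) < 3 ^ (200 * j))] at h1
        have h2 : |(d : ℝ) * 3 ^ (200 * j) * y - p| ≤ 1 / 3 ^ (400 * j) := by
          rw [mul_assoc]; exact hp
        have h3 := NUM.lower_d κ hκ (|(d : ℝ)| * 3 ^ (200 * j)) (by positivity) _
          (3 ^ (400 * j)) (by positivity) h1 h2
        rw [← ha, Real.mul_rpow hκ.le (by positivity)] at h3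
        have h4 : (3 : ℝ) ^ (399 * j) ≤ ((3 : ℝ) ^ (400 * j)) ^ a := by
          rw [← Real.rpow_natCast (3 : ℝ) (399 * j), ← Real.rpow_natCast (3 : ℝ) (400 * j),
            ← Real.rpow_mul (by norm_num)]
          refine Real.rpow_le_rpow_of_exponent_le (by norm_num) ?_
          rw [ha]
          push_cast
          have : (0 : ℝ) ≤ j := Nat.cast_nonneg j
          linarith
        have h5 : κ ^ a * 3 ^ (199 * j) * 3 ^ (200 * j) ≤ |(d : ℝ)| * 3 ^ (200 * j) := by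
          calc κ ^ a * 3 ^ (199 * j) * 3 ^ (200 * j) = κ ^ a * 3 ^ (399 * j) := by
                rw [mul_assoc, ← pow_add]
                congr 2
                ring
            _ ≤ κ ^ a * ((3 : ℝ) ^ (400 * j)) ^ a := mul_le_mul_of_nonneg_left h4 hka.le
            _ ≤ _ := h3
        exact le_of_mul_le_mul_right h5 (by positivity))
    refine hmain.trans ?_
    refine mul_le_mul_of_nonneg_left ?_ (by positivity)
    refine add_le_add le_rfl (mul_le_mul_of_nonneg_right ?_ (by positivity))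
    have h6 : (1 : ℝ) / (κ ^ a * 3 ^ (199 * j)) = (κ ^ a)⁻¹ / 3 ^ (199 * j) := by
      rw [one_div, mul_inv, div_eq_mul_inv]
    have h7 : (1 : ℝ) / ((3 ^ (200 * j - 2) : ℕ) : ℝ) ≤ 9 / 3 ^ (199 * j) := by
      rw [div_le_div_iff₀ hHpos (by positivity), one_mul, mul_comm 9, hHr]
      exact pow_le_pow_right₀ (by norm_num) (by omega)
    rw [h6, hC2, add_div]
    exact add_le_add le_rfl h7
  have hN := hNTW (200 * j) (400 * j) j (1 / 3 ^ (200 * j)) y _ _ (by omega) hR hS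
  have hF := hFEW (200 * j) j 256 (by norm_num)
  exact NUM.assemble _ _ _ _ C1 C2 j hC2p hRb le_rfl (Nat.cast_nonneg _) hF hN

end MahlerT2
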