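import Pool.Agent.Work.MP_48678a_t2.Defs

/-! # Block QUA (helper65): quadratic irrationals are not well approximable -/

set_option autoImplicit false

namespace MahlerT2

open Filter

theorem p_QUA : Stmt_QUA := by
  rintro x hx ⟨f, hf0, hdeg, hroot⟩ hL
  have hfa : Polynomial.eval x (Polynomial.map (algebraMap ℤ ℝ) f) = 0 := by
    rw [Polynomial.eval_map_algebraMap]
    exact hroot
  obtain ⟨A, hA, hbound⟩ := Liouville.exists_pos_real_of_irrational_root hx hf0 hfa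
  obtain ⟨C, hC, hfreq⟩ := hL.exists_pos
  have hev : ∀ᶠ n : ℕ in atTop, C * A < (n : ℝ) ^ ((1 : ℝ) / 3000) :=
    ((tendsto_rpow_atTop (by norm_num : (0 : ℝ) < 1 / 3000)).comp
      tendsto_natCast_atTop_atTop).eventually_gt_atTop (C * A)
  obtain ⟨n, ⟨hn1, m, -, hm⟩, hn2⟩ := (hfreq.and_eventually hev).exists
  have hn0 : (0 : ℝ) < n := by exact_mod_cast hn1
  have hn1' : (1 : ℝ) ≤ n := by exact_mod_cast hn1
  have h1 := hbound m (n - 1)
  have e1 : (((n - 1 : ℕ) : ℝ) + 1) = n := by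
    have : (n - 1) + 1 = n := by omega
    exact_mod_cast this
  rw [e1] at h1
  have h2 : (n : ℝ) ^ f.natDegree ≤ (n : ℝ) ^ 2 := pow_le_pow_right₀ hn1' hdeg
  have h3 : (n : ℝ) ^ ((2 : ℝ) + 1 / 3000) = (n : ℝ) ^ 2 * (n : ℝ) ^ ((1 : ℝ) / 3000) := by
    rw [Real.rpow_add hn0, Real.rpow_two]
  rw [h3, lt_div_iff₀ (by positivity)] at hm
  have h4 : (1 : ℝ) ≤ (n : ℝ) ^ 2 * (|x - m / n| * A) :=
    h1.trans (mul_le_mul_of_nonneg_right h2 (by positivity))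
  have h5 : C * A * ((n : ℝ) ^ 2 * (|x - m / n| * A)) ≤
      (n : ℝ) ^ ((1 : ℝ) / 3000) * ((n : ℝ) ^ 2 * (|x - m / n| * A)) :=
    mul_le_mul_of_nonneg_right hn2.le (by positivity)
  have h6 : (n : ℝ) ^ ((1 : ℝ) / 3000) * ((n : ℝ) ^ 2 * (|x - m / n| * A)) =
      (|x - m / n| * ((n : ℝ) ^ 2 * (n : ℝ) ^ ((1 : ℝ) / 3000))) * A := by ring
  rw [h6] at h5
  have h7 : (|x - m / n| * ((n : ℝ) ^ 2 * (n : ℝ) ^ ((1 : ℝ) / 3000))) * A < C * A :=
    mul_lt_mul_of_pos_right hm hA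
  have h8 : 0 < C * A := by positivity
  nlinarith

end MahlerT2
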