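import Pool.Agent.Work.MP_48678a_t2.Defs

set_option autoImplicit false

namespace MahlerT2

open Finset

theorem p_RBD : Stmt_SEP → Stmt_INJ → Stmt_RBD := by
  intro hSEP hINJ k y β η D hD hyp
  obtain ⟨-, hinj, -, hbd⟩ := hINJ k
  set S : Finset (Fin k → Fin 3) := {δ : Fin k → Fin 3 | Near η (bal δ * y + β)} with hS
  have hmem : ∀ δ, δ ∈ S → Near η (bal δ * y + β) := by
    intro δ hδ
    simpa [hS] using hδ
  have habs : ∀ δ δ' : Fin k → Fin 3, |((bal δ : ℤ) : ℝ) - ((bal δ' : ℤ) : ℝ)| ≤ 3 ^ k := by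
    intro δ δ'
    have h1 : (2 : ℝ) * |((bal δ : ℤ) : ℝ)| < 3 ^ k := by
      have := hbd δ
      exact_mod_cast this
    have h2 : (2 : ℝ) * |((bal δ' : ℤ) : ℝ)| < 3 ^ k := by
      have := hbd δ'
      exact_mod_cast this
    have h3 : |((bal δ : ℤ) : ℝ) - ((bal δ' : ℤ) : ℝ)| ≤ |((bal δ : ℤ) : ℝ)| + |((bal δ' : ℤ) : ℝ)| :=
      abs_sub _ _
    linarith
  have hcard : #(S.image bal) = #S := Finset.card_image_of_injective S hinj
  have key := hSEP (S.image bal) (3 ^ k) D hD (by positivity) ?_ ?_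
  · rw [hcard] at key
    exact key
  · intro g hg g' hg'
    obtain ⟨δ, -, rfl⟩ := Finset.mem_image.1 hg
    obtain ⟨δ', -, rfl⟩ := Finset.mem_image.1 hg'
    exact habs δ δ'
  · intro g hg g' hg' hne
    obtain ⟨δ, hδ, rfl⟩ := Finset.mem_image.1 hg
    obtain ⟨δ', hδ', rfl⟩ := Finset.mem_image.1 hg'
    have hd : bal δ - bal δ' ≠ 0 := sub_ne_zero.2 hne
    have h1 := hyp (bal δ - bal δ') hd (by
      push_cast
      exact habs δ δ') (by
      obtain ⟨p, hp⟩ := hmem δ hδ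
      obtain ⟨p', hp'⟩ := hmem δ' hδ'
      refine ⟨p - p', ?_⟩
      have e : (((bal δ - bal δ' : ℤ) : ℝ) * y - ((p - p' : ℤ) : ℝ))
          = ((bal δ : ℤ) * y + β - p) - ((bal δ' : ℤ) * y + β - p') := by
        push_cast
        ring
      rw [e]
      have := abs_sub ((bal δ : ℝ) * y + β - p) ((bal δ' : ℝ) * y + β - p')
      linarith)
    push_cast at h1
    exact h1

end MahlerT2
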