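import Pool.Agent.Work.MP_48678a_t2.Defs

set_option autoImplicit false

namespace MahlerT2

open Finset

theorem p_SBD : Stmt_FEJ → Stmt_SPA → Stmt_SBD := by
  intro hFEJ hSPA M H J Y β η D hH hη hD hyp
  have hHpos : (0 : ℝ) < H := by exact_mod_cast hH
  refine (hFEJ M H Y β η hH hη).trans ?_
  have c0 : ∀ t : ℝ, 0 ≤ cosProd M t := fun t => Finset.prod_nonneg fun i _ => abs_nonneg _
  have c1 : ∀ t : ℝ, cosProd M t ≤ 1 := fun t =>
    Finset.prod_le_one (fun i _ => abs_nonneg _) (fun i _ => Real.abs_cos_le_one _)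
  set B : ℝ := 100 ^ J * (6 / 5) ^ M with hB
  -- one row
  have row : ∀ h' ∈ range H, ∑ h ∈ range H, cosProd M (((h : ℝ) - (h' : ℕ)) * Y)
      ≤ H * (3 / 4) ^ J + (H / D + 1) * B := by
    intro h' hh'
    have hh'' := Finset.mem_range.1 hh'
    set I : Finset ℤ := (range H).image (fun h : ℕ => (h : ℤ) - (h' : ℤ)) with hI
    have hinj : Set.InjOn (fun h : ℕ => (h : ℤ) - (h' : ℤ)) (range H : Set ℕ) := by
      intro a _ b _ hab
      simp only at hab
      omega
    have e1 : ∑ h ∈ range H, cosProd M (((h : ℝ) - (h' : ℕ)) * Y)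
        = ∑ g ∈ I, cosProd M (((g : ℤ) : ℝ) * Y) := by
      rw [hI, Finset.sum_image hinj]
      refine Finset.sum_congr rfl fun h _ => ?_
      push_cast
      rfl
    have hcI : #I = H := by
      rw [hI, Finset.card_image_of_injOn hinj, Finset.card_range]
    have hspa := hSPA M J I Y H D hD hHpos.le (by
      intro g hg g' hg'
      obtain ⟨a, ha, rfl⟩ := Finset.mem_image.1 hg
      obtain ⟨b, hb, rfl⟩ := Finset.mem_image.1 hg'
      have ha' := Finset.mem_range.1 ha
      have hb' := Finset.mem_range.1 hb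
      have ha'' : (a : ℝ) < H := by exact_mod_cast ha'
      have hb'' : (b : ℝ) < H := by exact_mod_cast hb'
      have ha0 : (0 : ℝ) ≤ a := by positivity
      have hb0 : (0 : ℝ) ≤ b := by positivity
      push_cast
      rw [abs_le]
      constructor <;> linarith) hyp
    have e2 : ∑ g ∈ I, cosProd M (((g : ℤ) : ℝ) * Y)
        ≤ ∑ g ∈ I, ((3 / 4 : ℝ) ^ J + if (3 / 4 : ℝ) ^ J < cosProd M (((g : ℤ) : ℝ) * Y) then 1
            else 0) := by
      refine Finset.sum_le_sum fun g _ => ?_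
      split_ifs with hlt
      · have h1 := c1 (((g : ℤ) : ℝ) * Y)
        have h2 : (0 : ℝ) ≤ (3 / 4) ^ J := by positivity
        linarith
      · push Not at hlt
        linarith
    rw [Finset.sum_add_distrib, Finset.sum_const, nsmul_eq_mul, hcI, ← Finset.sum_filter,
      Finset.sum_const, nsmul_eq_mul, mul_one] at e2
    rw [e1]
    linarith
  have tot : ∑ h ∈ range H, ∑ h' ∈ range H, cosProd M (((h : ℝ) - h') * Y)
      ≤ H * (H * (3 / 4) ^ J + (H / D + 1) * B) := by
    rw [Finset.sum_comm]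
    calc ∑ h' ∈ range H, ∑ h ∈ range H, cosProd M (((h : ℝ) - h') * Y)
        ≤ ∑ h' ∈ range H, (H * (3 / 4) ^ J + (H / D + 1) * B) := Finset.sum_le_sum row
      _ = H * (H * (3 / 4) ^ J + (H / D + 1) * B) := by
          rw [Finset.sum_const, nsmul_eq_mul, Finset.card_range]
  calc 4 / (H : ℝ) ^ 2 * 2 ^ M * ∑ h ∈ range H, ∑ h' ∈ range H, cosProd M (((h : ℝ) - h') * Y)
      ≤ 4 / (H : ℝ) ^ 2 * 2 ^ M * (H * (H * (3 / 4) ^ J + (H / D + 1) * B)) := by
        gcongr
    _ = 4 * 2 ^ M * ((3 / 4) ^ J + (1 / D + 1 / H) * B) := by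
        field_simp

end MahlerT2
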