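import Pool.Agent.Work.MP_48678a_t2.Defs

set_option autoImplicit false

namespace MahlerT2

theorem p_SEP : Stmt_SEP := by
  intro G ℓ D hD hℓ h1 h2
  rcases G.eq_empty_or_nonempty with hG | hG
  · rw [hG]
    simp only [Finset.card_empty, Nat.cast_zero]
    have := div_nonneg hℓ hD.le
    linarith
  · obtain ⟨m, hm, hmin⟩ : ∃ m ∈ G, ∀ g ∈ G, m ≤ g :=
      ⟨G.min' hG, G.min'_mem hG, fun g hg => G.min'_le g hg⟩
    obtain ⟨f, hf⟩ : ∃ f : ℤ → ℕ, ∀ g, f g = ⌊((g : ℝ) - m) / D⌋₊ := ⟨_, fun _ => rfl⟩
    have hnn : ∀ g ∈ G, 0 ≤ ((g : ℝ) - m) / D := by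
      intro g hg
      have : (m : ℝ) ≤ g := by exact_mod_cast hmin g hg
      exact div_nonneg (by linarith) hD.le
    have hcard : G.card ≤ (Finset.range (⌊ℓ / D⌋₊ + 1)).card := by
      apply Finset.card_le_card_of_injOn f
      · intro g hg
        have hg' : g ∈ G := hg
        have h3 : ((g : ℝ) - m) / D ≤ ℓ / D := by
          have h4 := h1 g hg' m hm
          have h5 := (abs_le.mp h4).2
          exact div_le_div_of_nonneg_right h5 hD.le
        have h4 : f g ≤ ⌊ℓ / D⌋₊ := by
          rw [hf]
          exact Nat.floor_le_floor h3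
        simp only [Finset.coe_range, Set.mem_Iio]
        omega
      · intro g hg g' hg' he
        have hg1 : g ∈ G := hg
        have hg2 : g' ∈ G := hg'
        by_contra hne
        have h3 := h2 g hg1 g' hg2 hne
        rw [hf, hf] at he
        have a1 := Nat.floor_le (hnn g hg1)
        have a2 := Nat.floor_le (hnn g' hg2)
        have b1 := Nat.lt_floor_add_one (((g : ℝ) - m) / D)
        have b2 := Nat.lt_floor_add_one (((g' : ℝ) - m) / D)
        rw [he] at a1 b1
        have c1 : |((g : ℝ) - m) / D - ((g' : ℝ) - m) / D| < 1 := by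
          rw [abs_lt]
          constructor <;> linarith
        have c2 : ((g : ℝ) - m) / D - ((g' : ℝ) - m) / D = ((g : ℝ) - g') / D := by
          rw [← sub_div]
          congr 1
          ring
        rw [c2, abs_div, abs_of_pos hD, div_lt_one hD] at c1
        linarith
    rw [Finset.card_range] at hcard
    have h3 : (G.card : ℝ) ≤ (⌊ℓ / D⌋₊ : ℝ) + 1 := by exact_mod_cast hcard
    have h4 := Nat.floor_le (div_nonneg hℓ hD.le)
    linarith

end MahlerT2
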