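import Pool.Agent.Work.MP_48678a_t2.Defs

/-!
# MP_48678a_nt, T2: block SPA
-/

set_option autoImplicit false

namespace MahlerT2

open Finset

theorem p_SPA (hSEP : Stmt_SEP) (hPAT : Stmt_PAT) (hFEW : Stmt_FEW) : Stmt_SPA := by
  classical
  intro M J I Y ℓ D hD hℓ hI hd
  obtain ⟨pat, hp1, hp2⟩ := hPAT M
  set S : Finset ℤ := {g ∈ I | (3 / 4 : ℝ) ^ J < cosProd M (((g : ℤ) : ℝ) * Y)} with hS
  set T : Finset (Fin M → Fin 3) := {δ : Fin M → Fin 3 | nz δ ≤ 2 * J} with hT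
  have hmap : ∀ g ∈ S, pat ((g : ℝ) * Y) ∈ T := by
    intro g hg
    rw [hS, Finset.mem_filter] at hg
    rw [hT, Finset.mem_filter]
    refine ⟨Finset.mem_univ _, ?_⟩
    have h1 : ((3 / 4 : ℝ) ^ J) ^ 2 < (3 / 4 : ℝ) ^ nz (pat ((g : ℝ) * Y)) := by
      refine lt_of_lt_of_le ?_ (hp1 _)
      exact pow_lt_pow_left₀ hg.2 (by positivity) (by norm_num)
    rw [← pow_mul, mul_comm J 2] at h1
    have h2 := (pow_lt_pow_iff_right_of_lt_one₀ (by norm_num : (0 : ℝ) < 3 / 4)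
      (by norm_num : (3 / 4 : ℝ) < 1)).1 h1
    exact h2.le
  have hcard : #S = ∑ δ ∈ T, #{g ∈ S | pat (((g : ℤ) : ℝ) * Y) = δ} :=
    Finset.card_eq_sum_card_fiberwise fun g hg => hmap g hg
  have hfib : ∀ δ ∈ T, (#{g ∈ S | pat (((g : ℤ) : ℝ) * Y) = δ} : ℝ) ≤ ℓ / D + 1 := by
    intro δ _
    have hsub : ∀ g ∈ ({g ∈ S | pat (((g : ℤ) : ℝ) * Y) = δ} : Finset ℤ), g ∈ I := by
      intro g hg
      exact (Finset.mem_filter.1 (Finset.mem_filter.1 hg).1).1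
    refine hSEP _ ℓ D hD hℓ (fun g hg g' hg' => hI g (hsub g hg) g' (hsub g' hg')) ?_
    intro g hg g' hg' hne
    have e1 : pat ((g : ℝ) * Y) = δ := (Finset.mem_filter.1 hg).2
    have e2 : pat ((g' : ℝ) * Y) = δ := (Finset.mem_filter.1 hg').2
    have h3 := hp2 ((g : ℝ) * Y) ((g' : ℝ) * Y) (e1.trans e2.symm)
    have h4 : (g : ℝ) * Y - (g' : ℝ) * Y = ((g - g' : ℤ) : ℝ) * Y := by push_cast; ring
    rw [h4] at h3
    have h5 := hI g (hsub g hg) g' (hsub g' hg')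
    have h6 := hd (g - g') (sub_ne_zero.2 hne) (by push_cast; exact h5) h3
    push_cast at h6
    exact h6
  have hTc : (#T : ℝ) ≤ 100 ^ J * (6 / 5) ^ M := by
    have h7 := hFEW M (2 * J) 10 (by norm_num)
    have e3 : (10 : ℝ) ^ (2 * J) = 100 ^ J := by
      rw [pow_mul]
      norm_num
    have e4 : (1 + 2 / 10 : ℝ) = 6 / 5 := by norm_num
    rw [e3, e4] at h7
    exact h7
  have h8 : (#S : ℝ) = ∑ δ ∈ T, (#{g ∈ S | pat (((g : ℤ) : ℝ) * Y) = δ} : ℝ) := by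
    rw [hcard]
    push_cast
    rfl
  rw [h8]
  calc ∑ δ ∈ T, (#{g ∈ S | pat (((g : ℤ) : ℝ) * Y) = δ} : ℝ) ≤ ∑ _δ ∈ T, (ℓ / D + 1) :=
        Finset.sum_le_sum hfib
    _ = (ℓ / D + 1) * #T := by
        rw [Finset.sum_const, nsmul_eq_mul, mul_comm]
    _ ≤ (ℓ / D + 1) * (100 ^ J * (6 / 5) ^ M) :=
        mul_le_mul_of_nonneg_left hTc (by positivity)

end MahlerT2
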