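import Pool.Agent.Work.MP_48678a_t2.Defs

set_option autoImplicit false

/-! # STR: digits of a natural number as a string -/

namespace MahlerT2

theorem p_STR : Stmt_STR := by
  intro A k h
  refine ⟨fun i => ⟨A / 3 ^ (i : ℕ) % 3, Nat.lt_succ_of_le (h i)⟩, ?_⟩
  unfold val
  simp only
  have key : ∀ n : ℕ, (∑ i ∈ Finset.range n, ((A / 3 ^ i % 3 : ℕ) : ℤ) * 3 ^ i) =
      ((A % 3 ^ n : ℕ) : ℤ) := by
    intro n
    induction n with
    | zero => simp [Nat.mod_one]
    | succ n ih =>
      rw [Finset.sum_range_succ, ih, Nat.mod_pow_succ]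
      push_cast
      ring
  rw [← key k, Finset.sum_range]

end MahlerT2
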