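import Pool.Agent.Work.MP_48678a_t2.B_CAU
import Pool.Agent.Work.MP_48678a_t2.B_CNT
import Pool.Agent.Work.MP_48678a_t2.B_DIF
import Pool.Agent.Work.MP_48678a_t2.B_DIG
import Pool.Agent.Work.MP_48678a_t2.B_DIO
import Pool.Agent.Work.MP_48678a_t2.B_FEJ
import Pool.Agent.Work.MP_48678a_t2.B_FEW
import Pool.Agent.Work.MP_48678a_t2.B_INJ
import Pool.Agent.Work.MP_48678a_t2.B_NTW
import Pool.Agent.Work.MP_48678a_t2.B_NUM
import Pool.Agent.Work.MP_48678a_t2.B_PAT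
import Pool.Agent.Work.MP_48678a_t2.B_QUA
import Pool.Agent.Work.MP_48678a_t2.B_RBD
import Pool.Agent.Work.MP_48678a_t2.B_SBD
import Pool.Agent.Work.MP_48678a_t2.B_SEP
import Pool.Agent.Work.MP_48678a_t2.B_SPA
import Pool.Agent.Work.MP_48678a_t2.B_STR

set_option autoImplicit false

namespace MahlerT2

/-- All blocks together. -/
theorem all : Stmt_T2 := by
  have hSPA : Stmt_SPA := p_SPA p_SEP p_PAT p_FEW
  have hSBD : Stmt_SBD := p_SBD p_FEJ hSPA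
  have hRBD : Stmt_RBD := p_RBD p_SEP p_INJ
  have hNUM : Stmt_NUM := p_NUM p_NTW hSBD hRBD p_FEW
  have hCAU : Stmt_CAU := p_CAU p_DIG p_STR p_INJ
  exact p_T2 (p_CNT hCAU hNUM) p_DIO

/-- The unconditional case of quadratic irrationals. -/
theorem quadratic (x : ℝ) (hx : 0 < x) (hirr : Irrational x)
    (hf : ∃ f : Polynomial ℤ, f ≠ 0 ∧ f.natDegree ≤ 2 ∧ Polynomial.aeval x f = 0) :
    ∃ C : ℝ, ∀ (γ : ℝ) (N : ℕ), 1 ≤ N →
      ({n : ℕ | 1 ≤ n ∧ n ≤ N ∧ Mahler (n * x + γ)}.ncard : ℝ) ≤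
        C * (N : ℝ) ^ (Real.log 2 / Real.log 3 - 1 / 3000) :=
  all x hx hirr (p_QUA x hirr hf)

end MahlerT2
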