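import Pool.Agent.Work.MP_48678a_t2.Defs

/-! # Block CAU (helper55): pigeonhole and Cauchy-Schwarz -/

set_option autoImplicit false

namespace MahlerT2

open Finset

namespace CAU

/-- Cauchy-Schwarz for a colouring -/
theorem cs {α κ : Type} [DecidableEq κ] [DecidableEq α] [Fintype κ] (A : Finset α) (c : α → κ) :
    (#A : ℝ) ^ 2 ≤ Fintype.card κ * (#{p ∈ A ×ˢ A | c p.1 = c p.2} : ℝ) := by
  have h1 : #A = ∑ b : κ, #{a ∈ A | c a = b} :=
    Finset.card_eq_sum_card_fiberwise (fun x _ => Finset.mem_coe.2 (Finset.mem_univ _))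
  have h2 : #{p ∈ A ×ˢ A | c p.1 = c p.2} = ∑ b : κ, #{a ∈ A | c a = b} ^ 2 := by
    rw [Finset.card_eq_sum_card_fiberwise (f := fun p => c p.1) (t := univ)
      (fun x _ => Finset.mem_coe.2 (Finset.mem_univ _))]
    refine Finset.sum_congr rfl fun b _ => ?_
    rw [sq, ← Finset.card_product]
    congr 1
    ext ⟨p, q⟩
    simp only [mem_filter, mem_product]
    constructor
    · rintro ⟨⟨⟨h1, h2⟩, h3⟩, h4⟩
      exact ⟨⟨h1, h4⟩, h2, h3.symm.trans h4⟩
    · rintro ⟨⟨h1, h2⟩, h3, h4⟩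
      exact ⟨⟨⟨h1, h3⟩, h2.trans h4.symm⟩, h2⟩
  have h3 := sq_sum_le_card_mul_sum_sq (s := (univ : Finset κ))
    (f := fun b => (#{a ∈ A | c a = b} : ℝ))
  rw [h2, h1]
  push_cast
  simpa using h3

/-- the quotients take two values -/
theorem two (T a a' u0 : ℕ) (hT : 0 < T) (h : a' < a + T) (hu : a / T = u0) :
    a' / T ≤ u0 + 1 := by
  rw [← hu, ← Nat.add_div_right a hT]
  exact Nat.div_le_div_right h.le

end CAU

open CAU in
theorem p_CAU : Stmt_DIG → Stmt_STR → Stmt_INJ → Stmt_CAU := by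
  classical
  intro hDIG hSTR hINJ k M N x γ hx hN A hA
  -- the digits
  have hD : ∀ n : ℕ, ∃ D : ℕ, n ∈ A → (∀ i : ℕ, D / 3 ^ i % 3 ≤ 1) ∧
      (D : ℝ) ≤ 3 ^ k * (n * x + γ) ∧ 3 ^ k * (n * x + γ) ≤ D + 1 / 2 := by
    intro n
    by_cases hn : n ∈ A
    · obtain ⟨D, h⟩ := hDIG _ (hA n hn).2.2 k
      exact ⟨D, fun _ => h⟩
    · exact ⟨0, fun h => absurd h hn⟩
  choose D hD using hD
  have hsB : ∀ n : ℕ, ∃ ε : Fin k → Fin 2, n ∈ A → val ε = ((D n % 3 ^ k : ℕ) : ℤ) := by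
    intro n
    by_cases hn : n ∈ A
    · obtain ⟨ε, h⟩ := hSTR (D n) k (hD n hn).1
      exact ⟨ε, fun _ => h⟩
    · exact ⟨0, fun h => absurd h hn⟩
  choose sB hsB using hsB
  have hdig : ∀ n ∈ A, ∀ i : ℕ, D n / 3 ^ k / 3 ^ i % 3 ≤ 1 := by
    intro n hn i
    rw [Nat.div_div_eq_div_mul, ← pow_add]
    exact (hD n hn).1 _
  have hs0 : ∀ n : ℕ, ∃ ε : Fin k → Fin 2, n ∈ A → val ε = ((D n / 3 ^ k % 3 ^ k : ℕ) : ℤ) := by
    intro n
    by_cases hn : n ∈ A
    · obtain ⟨ε, h⟩ := hSTR (D n / 3 ^ k) k (hdig n hn)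
      exact ⟨ε, fun _ => h⟩
    · exact ⟨0, fun h => absurd h hn⟩
  choose s0 hs0 using hs0
  have hs1 : ∀ n : ℕ, ∃ ε : Fin M → Fin 2, n ∈ A →
      val ε = ((D n / 3 ^ k / 3 ^ k % 3 ^ M : ℕ) : ℤ) := by
    intro n
    by_cases hn : n ∈ A
    · obtain ⟨ε, h⟩ := hSTR (D n / 3 ^ k / 3 ^ k) M (by
        intro i
        rw [Nat.div_div_eq_div_mul (D n / 3 ^ k), ← pow_add]
        exact hdig n hn _)
      exact ⟨ε, fun _ => h⟩
    · exact ⟨0, fun h => absurd h hn⟩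
  choose s1 hs1 using hs1
  -- notation
  let a : ℕ → ℕ := fun n => D n / 3 ^ k
  have hDab : ∀ n, D n = 3 ^ k * a n + D n % 3 ^ k := fun n => (Nat.div_add_mod _ _).symm
  have h3k : (0 : ℝ) < 3 ^ k := by positivity
  have hb : ∀ n ∈ A, 2 * (D n % 3 ^ k) + 1 ≤ 3 ^ k := by
    intro n hn
    have h1 := ((hINJ k).2.2.1 (sB n)).2
    rw [hsB n hn] at h1
    have h2 : ((2 * (D n % 3 ^ k) : ℕ) : ℤ) < ((3 ^ k : ℕ) : ℤ) := by
      push_cast
      push_cast at h1
      exact h1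
    have h3 : 2 * (D n % 3 ^ k) < 3 ^ k := by exact_mod_cast h2
    omega
  have ha1 : ∀ n ∈ A, (a n : ℝ) ≤ n * x + γ := by
    intro n hn
    have h1 := (hD n hn).2.1
    have h2 : ((3 ^ k * a n : ℕ) : ℝ) ≤ (D n : ℝ) := by
      exact_mod_cast (by rw [hDab n]; exact Nat.le_add_right _ _ : 3 ^ k * a n ≤ D n)
    push_cast at h2
    exact le_of_mul_le_mul_left (h2.trans h1) h3k
  have ha2 : ∀ n ∈ A, (n : ℝ) * x + γ ≤ a n + 1 / 2 := by
    intro n hn
    have h1 := (hD n hn).2.2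
    have h2 : (D n : ℝ) = 3 ^ k * a n + ((D n % 3 ^ k : ℕ) : ℝ) := by
      exact_mod_cast hDab n
    have h3 : 2 * ((D n % 3 ^ k : ℕ) : ℝ) + 1 ≤ 3 ^ k := by exact_mod_cast hb n hn
    rw [h2] at h1
    have h4 : 3 ^ k * ((n : ℝ) * x + γ) ≤ 3 ^ k * (a n + 1 / 2) := by
      rw [mul_add (3 ^ k) (a n : ℝ)]
      linarith
    exact le_of_mul_le_mul_left h4 h3k
  have hainj : ∀ n ∈ A, ∀ n' ∈ A, a n = a n' → n = n' := by
    have key : ∀ n ∈ A, ∀ n' ∈ A, a n = a n' → n ≤ n' := by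
      intro n hn n' hn' h
      by_contra hcon
      push Not at hcon
      have h1 : (n' : ℝ) + 1 ≤ n := by exact_mod_cast hcon
      have h2 := ha2 n hn
      have h3 := ha1 n' hn'
      rw [h] at h2
      have h4 : ((n' : ℝ) + 1) * x ≤ n * x := mul_le_mul_of_nonneg_right h1 (by linarith)
      linarith
    intro n hn n' hn' h
    exact le_antisymm (key n hn n' hn' h) (key n' hn' n hn h.symm)
  have hlt : ∀ n ∈ A, ∀ n' ∈ A, a n' < a n + 3 ^ (k + M) := by
    intro n hn n' hn'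
    have h1 := ha1 n' hn'
    have h2 := ha2 n hn
    have h3 : (n' : ℝ) ≤ N := by exact_mod_cast (hA n' hn').2.1
    have h4 : (1 : ℝ) ≤ n := by exact_mod_cast (hA n hn).1
    have h5 : (n' : ℝ) * x ≤ N * x := mul_le_mul_of_nonneg_right h3 (by linarith)
    have h6 : 1 * x ≤ n * x := mul_le_mul_of_nonneg_right h4 (by linarith)
    have h7 : (a n' : ℝ) < a n + 3 ^ (k + M) := by linarith
    exact_mod_cast h7
  have hT : 0 < 3 ^ (k + M) := by positivity
  by_cases hAe : A = ∅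
  · subst hAe
    simp only [Finset.card_empty, Nat.cast_zero, ne_eq, OfNat.ofNat_ne_zero, not_false_eq_true,
      zero_pow]
    positivity
  obtain ⟨n0, hn0, hmin⟩ := Finset.exists_min_image A (fun n => a n / 3 ^ (k + M))
    (Finset.nonempty_iff_ne_empty.2 hAe)
  let u : ℕ → ℕ := fun n => a n / 3 ^ (k + M)
  have hu : ∀ n ∈ A, u n = u n0 ∨ u n = u n0 + 1 := by
    intro n hn
    have h1 : u n0 ≤ u n := hmin n hn
    have h2 : u n ≤ u n0 + 1 := two _ _ _ _ hT (hlt n0 hn0 n hn) rfl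
    omega
  let c : ℕ → Bool × (Fin k → Fin 2) := fun n => (decide (u n = u n0), sB n)
  have hc : ∀ n ∈ A, ∀ n' ∈ A, decide (u n = u n0) = decide (u n' = u n0) → u n = u n' := by
    intro n hn n' hn' h
    rw [decide_eq_decide] at h
    rcases hu n hn with h1 | h1
    · rw [h1, h.1 h1]
    · rcases hu n' hn' with h2 | h2
      · rw [h2, h.2 h2]
      · rw [h1, h2]
  have hmod : ∀ n ∈ A, ((a n % 3 ^ (k + M) : ℕ) : ℤ) = 3 ^ k * val (s1 n) + val (s0 n) := by
    intro n hn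
    rw [hs1 n hn, hs0 n hn, pow_add, Nat.mod_mul]
    show ((a n % 3 ^ k + 3 ^ k * (a n / 3 ^ k % 3 ^ M) : ℕ) : ℤ) =
      3 ^ k * ((a n / 3 ^ k % 3 ^ M : ℕ) : ℤ) + ((a n % 3 ^ k : ℕ) : ℤ)
    rw [Nat.cast_add, Nat.cast_mul, Nat.cast_pow, Nat.cast_ofNat]
    ring
  have haum : ∀ n, a n = 3 ^ (k + M) * u n + a n % 3 ^ (k + M) := fun n =>
    (Nat.div_add_mod _ _).symm
  -- the number of pairs in one class
  have hP : #{p ∈ A ×ˢ A | c p.1 = c p.2} ≤ 2 * N2 k M (1 / 3 ^ k) (1 / x) := by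
    have e1 : 2 * N2 k M (1 / 3 ^ k) (1 / x) = #((univ : Finset Bool) ×ˢ
        ({z : Pairs k × Pairs M | Near (1 / 3 ^ k)
          (((3 ^ k * (val z.2.1 - val z.2.2) + (val z.1.1 - val z.1.2) : ℤ) : ℝ) * (1 / x))} :
          Finset (Pairs k × Pairs M))) := by
      rw [Finset.card_product]
      rfl
    rw [e1]
    refine Finset.card_le_card_of_injOn
      (fun p => (decide (u p.1 = u n0), (s0 p.1, s0 p.2), (s1 p.1, s1 p.2))) ?_ ?_
    · rintro ⟨n, n'⟩ hp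
      rw [Finset.mem_coe, Finset.mem_filter, Finset.mem_product] at hp
      obtain ⟨⟨hn, hn'⟩, hcc⟩ := hp
      have hcc1 : decide (u n = u n0) = decide (u n' = u n0) := congrArg Prod.fst hcc
      have hcc2 : sB n = sB n' := congrArg Prod.snd hcc
      have huu := hc n hn n' hn' hcc1
      have hbb : D n % 3 ^ k = D n' % 3 ^ k := by
        have h1 := hsB n hn
        rw [hcc2, hsB n' hn'] at h1
        exact_mod_cast h1.symm
      rw [Finset.mem_coe, Finset.mem_product]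
      refine ⟨Finset.mem_univ _, ?_⟩
      rw [Finset.mem_filter]
      refine ⟨Finset.mem_univ _, ?_⟩
      refine ⟨(n : ℤ) - n', ?_⟩
      show |((3 ^ k * (val (s1 n) - val (s1 n')) + (val (s0 n) - val (s0 n')) : ℤ) : ℝ) * (1 / x) -
        (((n : ℤ) - n' : ℤ) : ℝ)| ≤ 1 / 3 ^ k
      have e2 : (3 ^ k * (val (s1 n) - val (s1 n')) + (val (s0 n) - val (s0 n')) : ℤ) =
          (a n : ℤ) - a n' := by
        have h1 := hmod n hn
        have h2 := hmod n' hn'
        have h3 : (a n : ℤ) = 3 ^ (k + M) * (u n : ℤ) + ((a n % 3 ^ (k + M) : ℕ) : ℤ) := by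
          exact_mod_cast haum n
        have h4 : (a n' : ℤ) = 3 ^ (k + M) * (u n' : ℤ) + ((a n' % 3 ^ (k + M) : ℕ) : ℤ) := by
          exact_mod_cast haum n'
        rw [h3, h4, h1, h2, huu]
        ring
      rw [e2]
      push_cast
      have e3 : (D n : ℝ) - D n' = 3 ^ k * ((a n : ℝ) - a n') := by
        have h1 : (D n : ℝ) = 3 ^ k * a n + ((D n % 3 ^ k : ℕ) : ℝ) := by
          exact_mod_cast hDab n
        have h2 : (D n' : ℝ) = 3 ^ k * a n' + ((D n' % 3 ^ k : ℕ) : ℝ) := by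
          exact_mod_cast hDab n'
        rw [h1, h2, hbb]
        ring
      have h1 := (hD n hn).2
      have h2 := (hD n' hn').2
      have e4 : |3 ^ k * (((a n : ℝ) - a n') - (n - n') * x)| ≤ 1 / 2 := by
        have e5 : 3 ^ k * (((a n : ℝ) - a n') - (n - n') * x) =
            ((D n : ℝ) - 3 ^ k * (n * x + γ)) - (D n' - 3 ^ k * (n' * x + γ)) := by
          rw [mul_sub, ← e3]
          ring
        rw [e5, abs_le]
        constructor <;> linarith [h1.1, h1.2, h2.1, h2.2]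
      rw [abs_mul, abs_of_pos h3k] at e4
      have e6 : ((a n : ℝ) - a n') * (1 / x) - (n - n') =
          (((a n : ℝ) - a n') - (n - n') * x) / x := by
        field_simp
      rw [e6, abs_div, abs_of_pos (by linarith : (0 : ℝ) < x),
        div_le_iff₀ (by linarith : (0 : ℝ) < x)]
      have e7 : |((a n : ℝ) - a n') - (n - n') * x| ≤ 1 / 3 ^ k := by
        rw [le_div_iff₀ h3k]
        linarith
      have e8 : 1 / 3 ^ k * 1 ≤ 1 / (3 : ℝ) ^ k * x := mul_le_mul_of_nonneg_left hx (by positivity)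
      linarith
    · rintro ⟨n, n'⟩ hp ⟨m, m'⟩ hq heq
      rw [Finset.mem_coe, Finset.mem_filter, Finset.mem_product] at hp hq
      obtain ⟨⟨hn, hn'⟩, hcc⟩ := hp
      obtain ⟨⟨hm, hm'⟩, hdd⟩ := hq
      have hcc1 : decide (u n = u n0) = decide (u n' = u n0) := congrArg Prod.fst hcc
      have hdd1 : decide (u m = u n0) = decide (u m' = u n0) := congrArg Prod.fst hdd
      have huu := hc n hn n' hn' hcc1
      have hvv := hc m hm m' hm' hdd1
      simp only [Prod.mk.injEq] at heq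
      obtain ⟨h1, ⟨h2, h3⟩, h4, h5⟩ := heq
      have hum := hc n hn m hm h1
      have k1 : a n = a m := by
        have g1 := hmod n hn
        have g2 := hmod m hm
        rw [h2, h4, ← g2] at g1
        have g3 : a n % 3 ^ (k + M) = a m % 3 ^ (k + M) := by exact_mod_cast g1
        rw [haum n, haum m, g3, hum]
      have k2 : a n' = a m' := by
        have g1 := hmod n' hn'
        have g2 := hmod m' hm'
        rw [h3, h5, ← g2] at g1
        have g3 : a n' % 3 ^ (k + M) = a m' % 3 ^ (k + M) := by exact_mod_cast g1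
        rw [haum n', haum m', g3, ← huu, ← hvv, hum]
      rw [hainj n hn m hm k1, hainj n' hn' m' hm' k2]
  have hcs := cs A c
  have hcard : Fintype.card (Bool × (Fin k → Fin 2)) = 2 * 2 ^ k := by
    rw [Fintype.card_prod, Fintype.card_bool, Fintype.card_fun, Fintype.card_fin, Fintype.card_fin]
  rw [hcard] at hcs
  have hP' : (#{p ∈ A ×ˢ A | c p.1 = c p.2} : ℝ) ≤ 2 * N2 k M (1 / 3 ^ k) (1 / x) := by
    exact_mod_cast hP
  calc (#A : ℝ) ^ 2 ≤ ((2 * 2 ^ k : ℕ) : ℝ) * (#{p ∈ A ×ˢ A | c p.1 = c p.2} : ℝ) := hcs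
    _ ≤ ((2 * 2 ^ k : ℕ) : ℝ) * (2 * N2 k M (1 / 3 ^ k) (1 / x)) :=
        mul_le_mul_of_nonneg_left hP' (by positivity)
    _ = 4 * 2 ^ k * N2 k M (1 / 3 ^ k) (1 / x) := by push_cast; ring

end MahlerT2
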