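import Pool.Agent.Work.MP_48678a_t2.Defs

/-!
# Block PAT: the pattern of a real number
-/

set_option autoImplicit false

namespace MahlerT2.PAT

open Finset

/-- The nearest integer to `3 ^ i * t`. -/
noncomputable def r (t : ℝ) (i : ℕ) : ℤ := ⌊(3 : ℝ) ^ i * t + 1 / 2⌋

private lemma r_le (t : ℝ) (i : ℕ) : (r t i : ℝ) ≤ 3 ^ i * t + 1 / 2 := Int.floor_le _

private lemma lt_r (t : ℝ) (i : ℕ) : (3 : ℝ) ^ i * t + 1 / 2 < r t i + 1 := Int.lt_floor_add_one _

private lemma r_succ_lo (t : ℝ) (i : ℕ) : 3 * r t i - 1 ≤ r t (i + 1) := by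
  have h1 := r_le t i
  have h2 := lt_r t (i + 1)
  have h3 : (3 : ℝ) ^ (i + 1) * t = 3 * (3 ^ i * t) := by ring
  rw [h3] at h2
  have h4 : (3 : ℝ) * r t i - 1 < r t (i + 1) + 1 := by linarith
  have h5 : 3 * r t i - 1 < r t (i + 1) + 1 := by exact_mod_cast h4
  omega

private lemma r_succ_hi (t : ℝ) (i : ℕ) : r t (i + 1) ≤ 3 * r t i + 1 := by
  have h1 := lt_r t i
  have h2 := r_le t (i + 1)
  have h3 : (3 : ℝ) ^ (i + 1) * t = 3 * (3 ^ i * t) := by ring
  rw [h3] at h2
  have h4 : (r t (i + 1) : ℝ) < 3 * r t i + 2 := by linarith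
  have h5 : r t (i + 1) < 3 * r t i + 2 := by exact_mod_cast h4
  omega

/-- The digit, moved to `{0, 1, 2}`. -/
noncomputable def dig (t : ℝ) (i : ℕ) : Fin 3 :=
  ⟨(r t (i + 1) - 3 * r t i + 1).toNat, by
    have h1 := r_succ_lo t i
    have h2 := r_succ_hi t i
    omega⟩

private lemma dig_val (t : ℝ) (i : ℕ) :
    ((dig t i : ℕ) : ℤ) = r t (i + 1) - 3 * r t i + 1 := by
  have h1 := r_succ_lo t i
  have h2 := r_succ_hi t i
  change (((r t (i + 1) - 3 * r t i + 1).toNat : ℕ) : ℤ) = _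
  omega

private lemma cos_bound {u : ℝ} (h1 : 1 / 6 ≤ |u|) (h2 : |u| ≤ 1 / 2) :
    Real.cos (Real.pi * u) ^ 2 ≤ 3 / 4 := by
  have hpi := Real.pi_pos
  have e1 : Real.cos (Real.pi * u) = Real.cos (Real.pi * |u|) := by
    rcases abs_choice u with h | h <;> rw [h]
    rw [mul_neg, Real.cos_neg]
  rw [e1]
  have h3 : Real.cos (Real.pi * |u|) ≤ Real.cos (Real.pi / 6) := by
    apply Real.cos_le_cos_of_nonneg_of_le_pi
    · positivity
    · nlinarith
    · nlinarith
  have h4 : 0 ≤ Real.cos (Real.pi * |u|) := by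
    apply Real.cos_nonneg_of_neg_pi_div_two_le_of_le
    · have : 0 ≤ Real.pi * |u| := by positivity
      linarith
    · nlinarith
  rw [Real.cos_pi_div_six] at h3
  have h5 : (Real.sqrt 3 / 2) ^ 2 = 3 / 4 := by
    rw [div_pow, Real.sq_sqrt (by norm_num)]; norm_num
  calc Real.cos (Real.pi * |u|) ^ 2 ≤ (Real.sqrt 3 / 2) ^ 2 := by
        apply pow_le_pow_left₀ h4 h3
    _ = 3 / 4 := h5

private lemma cos_digit (t : ℝ) (i : ℕ) (h : dig t i ≠ 1) :
    Real.cos (Real.pi * (3 ^ i * t)) ^ 2 ≤ 3 / 4 := by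
  have hne : r t (i + 1) ≠ 3 * r t i := by
    intro he
    apply h
    apply Fin.ext
    have h1 := dig_val t i
    rw [he] at h1
    have h2 : ((dig t i : ℕ) : ℤ) = 1 := by rw [h1]; ring
    have h3 : (dig t i : ℕ) = 1 := by exact_mod_cast h2
    exact h3
  have a1 := r_le t i
  have a2 := lt_r t i
  have b1 := r_le t (i + 1)
  have b2 := lt_r t (i + 1)
  have h3 : (3 : ℝ) ^ (i + 1) * t = 3 * (3 ^ i * t) := by ring
  rw [h3] at b1 b2
  set u : ℝ := 3 ^ i * t - r t i with hu
  have hb : 1 / 6 ≤ |u| := by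
    rcases lt_or_gt_of_ne hne with hlt | hgt
    · have h4 : r t (i + 1) + 1 ≤ 3 * r t i := by omega
      have h5 : (r t (i + 1) : ℝ) + 1 ≤ 3 * r t i := by exact_mod_cast h4
      rw [le_abs]; right
      rw [hu]; linarith
    · have h4 : 3 * r t i + 1 ≤ r t (i + 1) := by omega
      have h5 : 3 * (r t i : ℝ) + 1 ≤ r t (i + 1) := by exact_mod_cast h4
      rw [le_abs]; left
      rw [hu]; linarith
  have hc : |u| ≤ 1 / 2 := by
    rw [abs_le]
    constructor <;> rw [hu] <;> linarith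
  have e2 : Real.cos (Real.pi * (3 ^ i * t)) ^ 2 = Real.cos (Real.pi * u) ^ 2 := by
    have e3 : Real.pi * (3 ^ i * t) = Real.pi * u + (r t i : ℤ) * Real.pi := by
      rw [hu]; ring
    rw [e3, Real.cos_add_int_mul_pi, mul_pow]
    have e4 : ((-1 : ℝ) ^ (r t i)) ^ 2 = 1 := by
      rw [← zpow_natCast, ← zpow_mul, mul_comm, zpow_mul]
      norm_num
    rw [e4, one_mul]
  rw [e2]
  exact cos_bound hb hc

/-- PAT: the pattern of a real number. -/
theorem _root_.MahlerT2.p_PAT : Stmt_PAT := by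
  intro M
  refine ⟨fun t i => dig t i, ?_, ?_⟩
  · intro t
    unfold cosProd nz
    rw [← Finset.prod_pow]
    have h1 : ∀ i ∈ (Finset.range M), |Real.cos (Real.pi * (3 ^ i * t))| ^ 2
        = Real.cos (Real.pi * (3 ^ i * t)) ^ 2 := fun i _ => sq_abs _
    rw [Finset.prod_congr rfl h1,
      Finset.prod_range (fun i => Real.cos (Real.pi * (3 ^ i * t)) ^ 2)]
    have h2 : ∏ i : Fin M, Real.cos (Real.pi * (3 ^ (i : ℕ) * t)) ^ 2
        ≤ ∏ i : Fin M, (if dig t i ≠ 1 then (3 / 4 : ℝ) else 1) := by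
      apply Finset.prod_le_prod
      · intro i _; positivity
      · intro i _
        split_ifs with hi
        · exact cos_digit t i hi
        · have := Real.neg_one_le_cos (Real.pi * (3 ^ (i : ℕ) * t))
          have := Real.cos_le_one (Real.pi * (3 ^ (i : ℕ) * t))
          nlinarith
    refine h2.trans (le_of_eq ?_)
    rw [Finset.prod_ite, Finset.prod_const_one, mul_one, Finset.prod_const]
  · intro t t' hp
    have hd : ∀ i < M, dig t i = dig t' i := fun i hi => congrFun hp ⟨i, hi⟩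
    have hr : ∀ i ≤ M, r t i - r t' i = 3 ^ i * (r t 0 - r t' 0) := by
      intro i
      induction i with
      | zero => intro _; simp
      | succ i ih =>
        intro hi
        have h1 := ih (by omega)
        have h2 := dig_val t i
        have h3 := dig_val t' i
        rw [hd i (by omega)] at h2
        have h4 : r t (i + 1) - r t' (i + 1) = 3 * (r t i - r t' i) := by linarith
        rw [h4, h1]; ring
    have hM := hr M le_rfl
    refine ⟨r t 0 - r t' 0, ?_⟩
    have hM' : (r t M : ℝ) - r t' M = 3 ^ M * (r t 0 - r t' 0) := by exact_mod_cast hM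
    have a1 := r_le t M
    have a2 := lt_r t M
    have b1 := r_le t' M
    have b2 := lt_r t' M
    have h3 : (0 : ℝ) < 3 ^ M := by positivity
    rw [le_div_iff₀ h3]
    have e1 : |t - t' - ((r t 0 - r t' 0 : ℤ) : ℝ)| * 3 ^ M
        = |3 ^ M * t - 3 ^ M * t' - (r t M - r t' M)| := by
      rw [← abs_of_pos h3, ← abs_mul, abs_of_pos h3, hM']
      congr 1
      push_cast
      ring
    rw [e1, abs_le]
    constructor <;> linarith

end MahlerT2.PAT
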