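import Mathlib

/-!
# Interface for the power saving theorem (MP_48678a_nt, T2)

Every block `X` is a proposition `Stmt_X`; a block file proves `theorem p_X : Stmt_X`.
-/

set_option autoImplicit false

namespace MahlerT2

open Finset

/-- `t` is an integral power of `3` times a number whose ternary digits are `0` and `1`. -/
def Mahler (t : ℝ) : Prop :=
  ∃ (m : ℤ) (ε : ℕ → ℕ), (∀ n, ε n ≤ 1) ∧ t = (3 : ℝ) ^ m * ∑' n, (ε n : ℝ) / (3 : ℝ) ^ n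

/-- The natural number with the `k` ternary digits `ε i` from `{0, 1}`. -/
def val {k : ℕ} (ε : Fin k → Fin 2) : ℤ := ∑ i, ((ε i : ℕ) : ℤ) * 3 ^ (i : ℕ)

/-- The integer with the `k` balanced ternary digits `δ i - 1` from `{-1, 0, 1}`. -/
def bal {k : ℕ} (δ : Fin k → Fin 3) : ℤ := ∑ i, (((δ i : ℕ) : ℤ) - 1) * 3 ^ (i : ℕ)

/-- The number of nonzero balanced digits. -/
def nz {k : ℕ} (δ : Fin k → Fin 3) : ℕ := #{i | δ i ≠ 1}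

/-- `t` is within `η` of an integer. -/
def Near (η t : ℝ) : Prop := ∃ p : ℤ, |t - p| ≤ η

noncomputable instance (η : ℝ) : DecidablePred (Near η) := fun _ => Classical.dec _

/-- The pairs of digit strings of length `k`. -/
abbrev Pairs (k : ℕ) : Type := (Fin k → Fin 2) × (Fin k → Fin 2)

/-- The number of quadruples `(a₀, a₀', a₁, a₁')` with
`(3 ^ k * (a₁ - a₁') + (a₀ - a₀')) * y` within `η` of an integer. -/
noncomputable def N2 (k M : ℕ) (η y : ℝ) : ℕ :=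
  #{x : Pairs k × Pairs M | Near η
    (((3 ^ k * (val x.2.1 - val x.2.2) + (val x.1.1 - val x.1.2) : ℤ) : ℝ) * y)}

/-- The product of cosines. -/
noncomputable def cosProd (M : ℕ) (t : ℝ) : ℝ := ∏ i ∈ range M, |Real.cos (Real.pi * (3 ^ i * t))|

/-! ## Blocks -/

/-- SEP: a set of integers in an interval of length `ℓ` with gaps at least `D`.
Proof: induction on `#G`, or: `g ↦ ⌊(g - min G) / D⌋₊` is injective on `G` with values at most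
`⌊ℓ / D⌋₊` (if two values agree the distance is `< D`). -/
def Stmt_SEP : Prop := ∀ (G : Finset ℤ) (ℓ D : ℝ), 0 < D → 0 ≤ ℓ →
  (∀ g ∈ G, ∀ g' ∈ G, |(g : ℝ) - g'| ≤ ℓ) → (∀ g ∈ G, ∀ g' ∈ G, g ≠ g' → D ≤ |(g : ℝ) - g'|) →
  (#G : ℝ) ≤ ℓ / D + 1

/-- INJ: the digit strings are determined by the value.
Proof: `finFunctionFinEquiv_apply` (`Fin k → Fin m` to `Fin (m ^ k)`, value `∑ f i * m ^ i`), for
`m = 3`: `bal δ = value - ∑ 3 ^ i` and `2 * ∑_{i < k} 3 ^ i = 3 ^ k - 1` (geometric sum);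
`val ε` is the value of `fun i => (ε i).castSucc`. Or induction with `Fin.sum_univ_succ`. -/
def Stmt_INJ : Prop := ∀ k : ℕ, Function.Injective (val : (Fin k → Fin 2) → ℤ) ∧
  Function.Injective (bal : (Fin k → Fin 3) → ℤ) ∧
  (∀ ε : Fin k → Fin 2, 0 ≤ val ε ∧ 2 * val ε < 3 ^ k) ∧
  ∀ δ : Fin k → Fin 3, 2 * |bal δ| < 3 ^ k

/-- FEW: the number of digit strings with few nonzero digits.
Proof: for `nz δ ≤ J` one has `1 ≤ μ ^ J * (1 / μ) ^ nz δ`; and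
`∑ δ, (1 / μ) ^ nz δ = ∑ δ, ∏ i, (if δ i = 1 then 1 else 1 / μ) = ∏ i, (1 + 2 / μ)`
(`Finset.prod_univ_sum`, `Fintype.piFinset_univ`, or `Finset.sum_prod_piFinset`). -/
def Stmt_FEW : Prop := ∀ (k J : ℕ) (μ : ℝ), 1 ≤ μ →
  (#{δ : Fin k → Fin 3 | nz δ ≤ J} : ℝ) ≤ μ ^ J * (1 + 2 / μ) ^ k

/-- DIF: differences of two digit strings.
Proof: the string `δ i = ε i + 1 - ε' i` has `bal δ = val ε - val ε'`; sum over the fibres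
(`Finset.sum_fiberwise` or `Finset.card_eq_sum_card_fiberwise`): the fibre over `δ` has
`∏ i, (1 or 2 or 1 for δ i = 0, 1, 2) = 2 ^ (k - nz δ)` elements (`Fintype.card_piFinset`, after
`(Fin k → Fin 2) × (Fin k → Fin 2) ≃ (Fin k → Fin 2 × Fin 2)`, `Equiv.arrowProdEquivProdArrow`).
Alternative: induction on `k` for all `f`, splitting off the lowest digit (`Fin.cons`,
`Fin.consEquiv`, `Fin.sum_univ_succ`, `val = ε 0 + 3 * val (tail)`). -/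
def Stmt_DIF : Prop := ∀ (k : ℕ) (f : ℤ → ℕ),
  ∑ x : Pairs k, f (val x.1 - val x.2) = ∑ δ : Fin k → Fin 3, 2 ^ (k - nz δ) * f (bal δ)

/-- NTW: the bound for `N2` (uses DIF). Proof: with `f m` the number of pairs `(ε₁, ε₁')` with
`Near η ((3 ^ k * (val ε₁ - val ε₁') + m) * y)`, `N2 = ∑ δ, 2 ^ (k - nz δ) * f (bal δ)` by DIF.
The `δ` with `t ≤ nz δ` contribute at most `2 ^ (k - t) * ∑ δ, f (bal δ)`, and
`∑ δ, f (bal δ) = ∑ (ε₁, ε₁'), #{δ | Near η (bal δ * y + β)} ≤ 4 ^ M * R` with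
`β = 3 ^ k * (val ε₁ - val ε₁') * y`. The `δ` with `nz δ ≤ t` contribute at most `2 ^ k * f (bal δ)`
each, and `f m ≤ ∑ ε₁', #{ε₁ | Near η (val ε₁ * (3 ^ k * y) + β)} ≤ 2 ^ M * S`. -/
def Stmt_NTW : Prop := ∀ (k M t : ℕ) (η y R S : ℝ), t ≤ k →
  (∀ β : ℝ, (#{δ : Fin k → Fin 3 | Near η (bal δ * y + β)} : ℝ) ≤ R) →
  (∀ β : ℝ, (#{ε : Fin M → Fin 2 | Near η (val ε * (3 ^ k * y) + β)} : ℝ) ≤ S) →
  (N2 k M η y : ℝ) ≤ 2 ^ (k - t) * 4 ^ M * R +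
    2 ^ k * 2 ^ M * S * #{δ : Fin k → Fin 3 | nz δ ≤ t}

/-- FEJ: the Fejer kernel. Proof: write `e u = exp (2 π i u)`, `t = val ε * Y + β`. If
`|t - p| ≤ 1 / (6 * H)` then for `h < H` the real part of `e (h * t) = e (h * (t - p))` is
`cos (2 π h (t - p)) ≥ 1 / 2`, so `H / 2 ≤ ‖∑ h < H, e (h * t)‖` and
`1 ≤ 4 / H ^ 2 * ‖∑ h < H, e (h * t)‖ ^ 2`. Sum over ALL `ε`: the sum of
`‖∑ h, e (h * t)‖ ^ 2 = ∑ h, ∑ h', e ((h - h') * t)` is `∑ h, ∑ h', ∑ ε, e ((h - h') * t_ε)`, of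
absolute value at most `∑ h, ∑ h', ‖∑ ε, e ((h - h') * val ε * Y)‖`, and
`∑ ε, e (g * val ε * Y) = ∏ i < M, (1 + e (g * 3 ^ i * Y))` (`Finset.prod_univ_sum`), with
`‖1 + e u‖ = 2 * |cos (π u)|`. -/
def Stmt_FEJ : Prop := ∀ (M H : ℕ) (Y β η : ℝ), 1 ≤ H → η ≤ 1 / (6 * H) →
  (#{ε : Fin M → Fin 2 | Near η (val ε * Y + β)} : ℝ) ≤
    4 / (H : ℝ) ^ 2 * 2 ^ M * ∑ h ∈ range H, ∑ h' ∈ range H, cosProd M (((h : ℝ) - h') * Y)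

/-- PAT: the pattern of a real number. Proof: `r i = ⌊3 ^ i * t + 1 / 2⌋`, so
`-1/2 ≤ 3 ^ i * t - r i < 1/2`, and `r (i + 1) - 3 * r i ∈ {-1, 0, 1}`; `pat t i` is the element of
`Fin 3` with value `r (i + 1) - 3 * r i + 1`. If it is not `1` then `|3 ^ i * t - r i| ≥ 1 / 6`
(indeed `|3 ^ (i+1) * t - 3 * r i| ≥ 1/2`), and `≤ 1 / 2`, so
`cos (π * 3 ^ i * t) ^ 2 = cos (π * (3 ^ i * t - r i)) ^ 2 ≤ cos (π / 6) ^ 2 = 3 / 4`.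
If `pat t = pat t'` then `r i - r' i = 3 ^ i * (r 0 - r' 0)` for `i ≤ M` by induction, and
`|3 ^ M * (t - t') - (r M - r' M)| ≤ 1`, so `p = r 0 - r' 0` works. -/
def Stmt_PAT : Prop := ∀ M : ℕ, ∃ pat : ℝ → (Fin M → Fin 3),
  (∀ t, cosProd M t ^ 2 ≤ (3 / 4) ^ nz (pat t)) ∧
  ∀ t t', pat t = pat t' → Near (1 / 3 ^ M) (t - t')

/-- SPA: few frequencies have a large product (uses SEP, PAT, FEW). Proof: if
`(3 / 4) ^ J < cosProd M (g * Y)` then by PAT `(3 / 4) ^ (2 * J) < (3 / 4) ^ nz (pat (g * Y))`, so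
`nz (pat (g * Y)) ≤ 2 * J`: by FEW with `μ = 10` at most `10 ^ (2 * J) * (6 / 5) ^ M` patterns
occur. Two different `g, g'` with the same pattern have `Near (1 / 3 ^ M) ((g - g') * Y)`, hence
`D ≤ |g - g'|`: by SEP each pattern has at most `ℓ / D + 1` elements `g`
(`Finset.card_le_mul_card_image` or `Finset.card_eq_sum_card_fiberwise`). -/
def Stmt_SPA : Prop := ∀ (M J : ℕ) (I : Finset ℤ) (Y ℓ D : ℝ), 0 < D → 0 ≤ ℓ →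
  (∀ g ∈ I, ∀ g' ∈ I, |(g : ℝ) - g'| ≤ ℓ) →
  (∀ d : ℤ, d ≠ 0 → |(d : ℝ)| ≤ ℓ → Near (1 / 3 ^ M) (d * Y) → D ≤ |(d : ℝ)|) →
  (#{g ∈ I | (3 / 4 : ℝ) ^ J < cosProd M (((g : ℤ) : ℝ) * Y)} : ℝ) ≤ (ℓ / D + 1) * (100 ^ J * (6 / 5) ^ M)

/-- SBD: the bound for one digit string (uses FEJ, SPA). Proof: for fixed `h'` let `I` be the set
of the `h - h'`, `h < H` (`#I = H`, `ℓ = H`): `∑ h < H, cosProd M ((h - h') * Y) ≤
H * (3 / 4) ^ J + #{g ∈ I | (3 / 4) ^ J < cosProd} ≤ H * (3 / 4) ^ J + (H / D + 1) * (...)`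
(`0 ≤ cosProd ≤ 1`). Sum over the `H` values `h'`, multiply by `4 / H ^ 2 * 2 ^ M`. -/
def Stmt_SBD : Prop := ∀ (M H J : ℕ) (Y β η D : ℝ), 1 ≤ H → η ≤ 1 / (6 * H) → 0 < D →
  (∀ d : ℤ, d ≠ 0 → |(d : ℝ)| ≤ H → Near (1 / 3 ^ M) (d * Y) → D ≤ |(d : ℝ)|) →
  (#{ε : Fin M → Fin 2 | Near η (val ε * Y + β)} : ℝ) ≤
    4 * 2 ^ M * ((3 / 4) ^ J + (1 / D + 1 / H) * (100 ^ J * (6 / 5) ^ M))

/-- RBD: the bound for the low balanced digits (uses SEP, INJ). Proof: the `bal δ` are distinct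
integers of absolute value `< 3 ^ k / 2`; for two of them in the set the difference `d` has
`|d| ≤ 3 ^ k` and `Near (2 * η) (d * y)`, so `D ≤ |d|`; SEP with `ℓ = 3 ^ k`. -/
def Stmt_RBD : Prop := ∀ (k : ℕ) (y β η D : ℝ), 0 < D →
  (∀ d : ℤ, d ≠ 0 → |(d : ℝ)| ≤ 3 ^ k → Near (2 * η) (d * y) → D ≤ |(d : ℝ)|) →
  (#{δ : Fin k → Fin 3 | Near η (bal δ * y + β)} : ℝ) ≤ 3 ^ k / D + 1

/-- NUM: the bound for `N2` at the scale `k = 200 j`, `M = 400 j` (uses NTW, SBD, RBD, FEW).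
Proof: NTW with `t = j`, `η = 1 / 3 ^ (200 j)`. Put `a = 3000 / 3001 = 1 / (1 + 1 / 3000)`.
R: if `|d * y - p| ≤ 2 η` then `|d| ^ (1 + 1/3000) ≥ κ * 3 ^ (200 j) / 2`, so
`|d| ≥ D := (κ / 2) ^ a * 3 ^ (200 * a * j)` and `3 ^ (200 j) / D + 1 ≤ C * (3 ^ (200 / 3001)) ^ j
≤ C * (6 / 5) ^ j` (as `3 ≤ (6 / 5) ^ 15` and `200 / 3001 ≤ 1 / 15`); RBD.
S: `H = 3 ^ (200 j - 2)` (`6 * H ≤ 3 ^ (200 j)`); if `|d * (3 ^ (200 j) * y) - p| ≤ 1 / 3 ^ (400 j)`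
then, with `d * 3 ^ (200 j)` in place of `d`, `(|d| * 3 ^ (200 j)) ^ (1 + 1/3000) ≥ κ * 3 ^ (400 j)`,
so `|d| ≥ κ ^ a * 3 ^ ((400 a - 200) * j) ≥ D' := κ ^ a * 3 ^ (199 j)`; SBD with `J = 29 j` gives
`S = 4 * 2 ^ (400 j) * ((3 / 4) ^ (29 j) + C * 3 ^ (-199 j) * (100 ^ (29 j) * (6 / 5) ^ (400 j)))`.
FEW with `μ = 256`, `J = j`: `256 ^ j * (129 / 128) ^ (200 j)`. Numbers (`norm_num`):
`256 * (129/128) ^ 200 * (3/4) ^ 29 ≤ 3/5`,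
`256 * (129/128) ^ 200 * 100 ^ 29 * (6/5) ^ 400 / 3 ^ 199 ≤ 3/5`, `(1/2) * (6/5) = 3/5`. -/
def Stmt_NUM : Prop := ∀ (κ y : ℝ), 0 < κ →
  (∀ d : ℤ, d ≠ 0 → ∀ p : ℤ, κ / |(d : ℝ)| ^ ((1 : ℝ) + 1 / 3000) ≤ |d * y - p|) →
  ∃ C : ℝ, 0 < C ∧ ∀ j : ℕ, 1 ≤ j →
    (N2 (200 * j) (400 * j) (1 / 3 ^ (200 * j)) y : ℝ) ≤
      C * (4 ^ (400 * j) * 2 ^ (200 * j) * (3 / 5) ^ j)

/-- DIG: the digits of a Mahler number. Proof: `3 ^ k * t = 3 ^ K * ∑' ε n / 3 ^ n` with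
`K = k + m`. If `K ≥ 0`: `A = ∑ n ≤ K, ε n * 3 ^ (K - n)` and the rest is
`∑' n > K, ε n * 3 ^ (K - n) ∈ [0, 1/2]` (geometric series; `Summable.sum_add_tsum_nat_add`).
If `K < 0`: `A = 0` and `3 ^ K * ∑' ε n / 3 ^ n ≤ 3⁻¹ * (3 / 2)`. -/
def Stmt_DIG : Prop := ∀ (t : ℝ), Mahler t → ∀ k : ℕ, ∃ A : ℕ, (∀ i : ℕ, A / 3 ^ i % 3 ≤ 1) ∧
  (A : ℝ) ≤ 3 ^ k * t ∧ 3 ^ k * t ≤ A + 1 / 2

/-- STR: digits of a natural number as a string. Proof: `ε i = A / 3 ^ i % 3`, induction on `k`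
(`Nat.mod_pow_succ`: `A % 3 ^ (k + 1) = A % 3 ^ k + 3 ^ k * (A / 3 ^ k % 3)`), or `Nat.ofDigits`. -/
def Stmt_STR : Prop := ∀ (A k : ℕ), (∀ i : ℕ, A / 3 ^ i % 3 ≤ 1) →
  ∃ ε : Fin k → Fin 2, val ε = ((A % 3 ^ k : ℕ) : ℤ)

/-- CAU: the pigeonhole and Cauchy-Schwarz step (uses DIG, STR, INJ). Proof: for `n ∈ A` take
`A n` from DIG (for `t = n * x + γ` and `k`), `b n = A n % 3 ^ k`, `a n = A n / 3 ^ k`,
`u n = a n / 3 ^ (k + M)`, `a' n = a n % 3 ^ (k + M)`; `a' n = 3 ^ k * v₁ + v₀` with `v₀, v₁` values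
of strings of length `k` and `M` (STR for `a n` and for `a n / 3 ^ k`; `b n` is the value of a
string of length `k`, STR for `A n`). As `b n ≤ (3 ^ k - 1) / 2`, `a n ≤ n * x + γ ≤ a n + 1 / 2`;
all these numbers `a n` lie in an interval of length `(N - 1) * x + 1 / 2 < 3 ^ (k + M)`, so `u n`
takes at most 2 values. So there are at most `2 * 2 ^ k` classes `(u n, b n)` and
`(#A) ^ 2 ≤ 2 * 2 ^ k * #{(n, n') | same class}` (`sq_sum_le_card_mul_sum_sq`). For `n, n'` in one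
class: `|(n - n') * x - (a' n - a' n')| ≤ 3 ^ (-k) / 2`, so `(a' n - a' n') * (1 / x)` is within
`1 / 3 ^ k` of `n - n'` (`x ≥ 1`). And `(n, n') ↦ (u n, strings of a' n, strings of a' n')` is
injective: `a n` determines `n` because `0 ≤ n * x + γ - a n ≤ 1 / 2` and `x ≥ 1`. So the number
of pairs in one class is at most `2 * N2 k M (1 / 3 ^ k) (1 / x)`. -/
def Stmt_CAU : Prop := ∀ (k M N : ℕ) (x γ : ℝ), 1 ≤ x → (N : ℝ) * x ≤ 3 ^ (k + M) →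
  ∀ A : Finset ℕ, (∀ n ∈ A, 1 ≤ n ∧ n ≤ N ∧ Mahler (n * x + γ)) →
  (#A : ℝ) ^ 2 ≤ 4 * 2 ^ k * N2 k M (1 / 3 ^ k) (1 / x)

/-- DIO: the Diophantine hypothesis for the inverse of a multiple. Proof: `c = 1 / 3000`.
`¬ LiouvilleWith (2 + c) x` with `C = 1` gives `n₀` with `1 / n ^ (2 + c) ≤ |x - m / n|` for all
`n ≥ n₀` and all integers `m` (`x ≠ m / n` as `x` is irrational); for the finitely many
`1 ≤ n < n₀` the distance from `n * x` to the integers is positive: so there is `κ₀ > 0` with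
`κ₀ / n ^ (2 + c) ≤ |x - m / n|` for all `n ≥ 1`, `m`. Now `y = 1 / (3 ^ m * x)`:
`|d * y - p| = y * |d - p * 3 ^ m * x| = y * q * |x - d' / q|` for `p ≠ 0`, `q = |p| * 3 ^ m`,
`d' = ± d`, so it is `≥ y * κ₀ * q ^ (-1 - c)`; if `|p| ≤ |d| * y + 1` then
`q ≤ 3 ^ m * (y + 1) * |d|`, else `|d * y - p| ≥ 1`; for `p = 0`: `|d * y| ≥ y`. -/
def Stmt_DIO : Prop := ∀ (x : ℝ), 0 < x → Irrational x → ¬ LiouvilleWith (2 + 1 / 3000) x →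
  ∀ m : ℕ, ∃ κ : ℝ, 0 < κ ∧ ∀ d : ℤ, d ≠ 0 → ∀ p : ℤ,
    κ / |(d : ℝ)| ^ ((1 : ℝ) + 1 / 3000) ≤ |d * (1 / (3 ^ m * x)) - p|

/-- QUA: quadratic irrationals. Proof: `Liouville.exists_pos_real_of_irrational_root` gives
`A > 0` with `1 ≤ (b + 1) ^ natDegree f * (|x - a / (b + 1)| * A)`, so
`|x - m / n| ≥ 1 / (A * n ^ 2)` for `n ≥ 1`; this contradicts `|x - m / n| < C / n ^ (2 + 1/3000)`
for large `n`. -/
def Stmt_QUA : Prop := ∀ (x : ℝ), Irrational x →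
  (∃ f : Polynomial ℤ, f ≠ 0 ∧ f.natDegree ≤ 2 ∧ Polynomial.aeval x f = 0) →
  ¬ LiouvilleWith (2 + 1 / 3000) x

/-- CNT: the counting bound for `x ≥ 1` (uses CAU, NUM). Proof: NUM for `y = 1 / x`: `C₀`. Given
`N`, let `j ≥ 1` be minimal with `N * x ≤ 3 ^ (600 j)`; then `3 ^ (600 j) ≤ 3 ^ 600 * x * N`. CAU
with `k = 200 j`, `M = 400 j`: `(#A) ^ 2 ≤ 4 * C₀ * 4 ^ (600 j) * (3 / 5) ^ j`. With
`θ = log 2 / log 3`: `2 ^ (600 j) = (3 ^ (600 j)) ^ θ`, `(3 / 5) ^ (j / 2) ≤ 3 ^ (-600 j / 3000)`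
(as `(3 / 5) ^ 5 ≤ 1 / 9`), so `#A ≤ 2 * √C₀ * (3 ^ 600 * x * N) ^ (θ - 1 / 3000)`. The set is
finite (subset of `Set.Iic N`). -/
def Stmt_CNT : Prop := ∀ (x κ : ℝ), 1 ≤ x → 0 < κ →
  (∀ d : ℤ, d ≠ 0 → ∀ p : ℤ, κ / |(d : ℝ)| ^ ((1 : ℝ) + 1 / 3000) ≤ |d * (1 / x) - p|) →
  ∃ C : ℝ, ∀ (γ : ℝ) (N : ℕ), 1 ≤ N →
    ({n : ℕ | 1 ≤ n ∧ n ≤ N ∧ Mahler (n * x + γ)}.ncard : ℝ) ≤
      C * (N : ℝ) ^ (Real.log 2 / Real.log 3 - 1 / 3000)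

/-- The theorem (uses CNT, DIO). Proof: choose `m` with `1 ≤ 3 ^ m * x`; `Mahler (n * x + γ)` iff
`Mahler (n * (3 ^ m * x) + 3 ^ m * γ)`; CNT for `3 ^ m * x`. -/
def Stmt_T2 : Prop := ∀ (x : ℝ), 0 < x → Irrational x → ¬ LiouvilleWith (2 + 1 / 3000) x →
  ∃ C : ℝ, ∀ (γ : ℝ) (N : ℕ), 1 ≤ N →
    ({n : ℕ | 1 ≤ n ∧ n ≤ N ∧ Mahler (n * x + γ)}.ncard : ℝ) ≤
      C * (N : ℝ) ^ (Real.log 2 / Real.log 3 - 1 / 3000)

end MahlerT2
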